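import Pool.Agent.Y883.GJ.Stm

set_option autoImplicit false

/-! Statements of project GJ, third part: ternary linear equations with large coefficients. -/

namespace Pool.Agent.Y883.GJ

open Finset
open Pool.Agent.H807R2.Dav (ee)

open Classical in
/-- the sum over the residues `x₁` modulo `k |c₂ c₃|`, `x₂` modulo `k |c₁ c₃|`, `x₃` modulo `k |c₁ c₂|` with
`c₁ x₁ + c₂ x₂ + c₃ x₃ ≡ d` modulo `k |c₁ c₂ c₃|` -/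
noncomputable def T3 (c1 c2 c3 : ℤ) (k : ℕ) [NeZero (k * c2.natAbs * c3.natAbs)]
    [NeZero (k * c1.natAbs * c3.natAbs)] [NeZero (k * c1.natAbs * c2.natAbs)]
    (d : ZMod (k * c1.natAbs * c2.natAbs * c3.natAbs))
    (A : ZMod (k * c2.natAbs * c3.natAbs) → ℂ) (B : ZMod (k * c1.natAbs * c3.natAbs) → ℂ)
    (C : ZMod (k * c1.natAbs * c2.natAbs) → ℂ) : ℂ :=
  ∑ x1 : ZMod (k * c2.natAbs * c3.natAbs), ∑ x2 : ZMod (k * c1.natAbs * c3.natAbs),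
    ∑ x3 : ZMod (k * c1.natAbs * c2.natAbs),
      if ((c1 * (x1.val : ℤ) + c2 * (x2.val : ℤ) + c3 * (x3.val : ℤ) : ℤ) :
        ZMod (k * c1.natAbs * c2.natAbs * c3.natAbs)) = d then A x1 * B x2 * C x3 else 0

/-- TNORM -/
def TNormStm : Prop := ∀ (c1 c2 c3 : ℤ) (k : ℕ) [NeZero (k * c2.natAbs * c3.natAbs)]
  [NeZero (k * c1.natAbs * c3.natAbs)] [NeZero (k * c1.natAbs * c2.natAbs)], IsCoprime c1 c2 →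
  IsCoprime c1 c3 → IsCoprime c2 c3 →
  ∀ (d : ZMod (k * c1.natAbs * c2.natAbs * c3.natAbs))
    (A : ZMod (k * c2.natAbs * c3.natAbs) → ℂ) (B : ZMod (k * c1.natAbs * c3.natAbs) → ℂ)
    (C : ZMod (k * c1.natAbs * c2.natAbs) → ℂ),
  ‖T3 c1 c2 c3 k d A B C‖ ^ 2 ≤ k * (∑ x, ‖A x‖ ^ 2) * (∑ x, ‖B x‖ ^ 2) * (∑ x, ‖C x‖ ^ 2)

/-- TJAC -/
def TJacStm : Prop := ∀ (c1 c2 c3 : ℤ) (k : ℕ) [NeZero (k * c2.natAbs * c3.natAbs)]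
  [NeZero (k * c1.natAbs * c3.natAbs)] [NeZero (k * c1.natAbs * c2.natAbs)], IsCoprime c1 c2 →
  IsCoprime c1 c3 → IsCoprime c2 c3 → ∀ K : ℕ, K = k * c1.natAbs * c2.natAbs * c3.natAbs →
  ∀ (d : ZMod (k * c1.natAbs * c2.natAbs * c3.natAbs))
    (χ₁ : DirichletCharacter ℂ (k * c2.natAbs * c3.natAbs))
    (χ₂ : DirichletCharacter ℂ (k * c1.natAbs * c3.natAbs))
    (χ₃ : DirichletCharacter ℂ (k * c1.natAbs * c2.natAbs)),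
  ‖T3 c1 c2 c3 k d (fun x => χ₁ x) (fun x => χ₂ x) (fun x => χ₃ x)‖ ≤
    k * K * (1 + Real.log K) * Real.sqrt ((K : ℝ) / K.totient) *
      Real.sqrt ((Nat.gcd d.val K : ℝ) / χ₁.conductor)

/-- TLIFT -/
def TLiftStm : Prop := ∀ (c1 c2 c3 : ℤ) (k : ℕ) [NeZero (k * c2.natAbs * c3.natAbs)]
  [NeZero (k * c1.natAbs * c3.natAbs)] [NeZero (k * c1.natAbs * c2.natAbs)] [NeZero (1 * c2.natAbs * c3.natAbs)]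
  [NeZero (1 * c1.natAbs * c3.natAbs)] [NeZero (1 * c1.natAbs * c2.natAbs)]
  [NeZero (k * c1.natAbs * c2.natAbs * c3.natAbs)]
  (P1 P2 P3 : ℕ) (G1 G2 G3 : ℕ → ℂ) (h d : ℤ) (α η : ℝ),
  α = h / (k * c1.natAbs * c2.natAbs * c3.natAbs : ℕ) + η →
  ‖T3 c1 c2 c3 1 (d : ZMod (1 * c1.natAbs * c2.natAbs * c3.natAbs))
      (cl _ P1 G1 (c1 * α)) (cl _ P2 G2 (c2 * α)) (cl _ P3 G3 (c3 * α))‖ ≤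
    ∑ d' ∈ univ.filter (fun d' : ZMod (k * c1.natAbs * c2.natAbs * c3.natAbs) =>
        ((d'.val : ℕ) : ZMod (1 * c1.natAbs * c2.natAbs * c3.natAbs)) = (d : ZMod (1 * c1.natAbs * c2.natAbs * c3.natAbs))),
      ‖T3 c1 c2 c3 k d' (cl _ P1 G1 (c1 * η)) (cl _ P2 G2 (c2 * η)) (cl _ P3 G3 (c3 * η))‖

/-- the sum over the solutions of the ternary equation -/
noncomputable def SS3 (c1 c2 c3 d : ℤ) (P1 P2 P3 : ℕ) (G1 G2 G3 : ℕ → ℂ) : ℂ :=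
  ∑ x ∈ Icc 1 P1, ∑ y ∈ Icc 1 P2, ∑ z ∈ Icc 1 P3,
    if c1 * (x : ℕ) + c2 * (y : ℕ) + c3 * (z : ℕ) = d then G1 x * G2 y * G3 z else 0

/-- TPARS -/
def TParsStm : Prop := 
  (∀ (c1 c2 c3 d : ℤ) [NeZero (1 * c2.natAbs * c3.natAbs)]
    [NeZero (1 * c1.natAbs * c3.natAbs)] [NeZero (1 * c1.natAbs * c2.natAbs)]
    (P1 P2 P3 M : ℕ) (G1 G2 G3 : ℕ → ℂ),
    c1.natAbs * P1 + c2.natAbs * P2 + c3.natAbs * P3 + d.natAbs < M * (c1.natAbs * c2.natAbs * c3.natAbs) →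
    (M : ℝ) * ‖SS3 c1 c2 c3 d P1 P2 P3 G1 G2 G3‖ ≤ ∑ t ∈ range M,
      ‖T3 c1 c2 c3 1 (d : ZMod (1 * c1.natAbs * c2.natAbs * c3.natAbs))
        (cl _ P1 G1 (c1 * ((t : ℝ) / (M * (c1.natAbs * c2.natAbs * c3.natAbs) : ℕ))))
        (cl _ P2 G2 (c2 * ((t : ℝ) / (M * (c1.natAbs * c2.natAbs * c3.natAbs) : ℕ))))
        (cl _ P3 G3 (c3 * ((t : ℝ) / (M * (c1.natAbs * c2.natAbs * c3.natAbs) : ℕ))))‖) ∧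
  ∀ (c : ℤ) (k q P M : ℕ) [NeZero (k * q)] (F : ℕ → ℂ), 1 ≤ k → 1 ≤ q → 1 ≤ M → c ≠ 0 → P ≤ M * q →
    ∑ t ∈ range M, ∑ l : ZMod (k * q), ‖cl (k * q) P F (c * ((t : ℝ) / (M * (c.natAbs * q) : ℕ))) l‖ ^ 2 =
      M * ∑ n ∈ Icc 1 P, ‖F n‖ ^ 2

/-- the structure of the functions at one scale -/
structure Str (ρ : ℝ) (A C C₃ P : ℕ) (G : ℕ → ℂ) : Prop where
  bd : ∀ n ∈ Icc 1 P, ‖G n‖ ≤ 2 * Real.log P * (n.divisors.card : ℝ)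
  nc : ∀ q : ℕ, 1 ≤ q → q ≤ P → ∑ n ∈ (Icc 1 P).filter (fun n => ¬ n.Coprime q), ‖G n‖ ≤ P / Real.log P ^ A
  maj : ∀ (q : ℕ) [NeZero q], (q : ℝ) ≤ (P : ℝ) ^ (1 / 2 - ρ) →
    ∃ B : Finset (DirichletCharacter ℂ q), (B.card : ℝ) ≤ Real.log P ^ C₃ ∧
      ∀ η : ℝ, |η| ≤ Real.log P ^ C / P → ∀ S : Finset (DirichletCharacter ℂ q), Disjoint S B →
        ∑ χ ∈ S, ‖cs q P G η χ‖ ^ 2 ≤ (P : ℝ) ^ 2 / Real.log P ^ A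

/-- the minor arcs at one scale -/
def Mnr (ρ : ℝ) (A C P : ℕ) (G : ℕ → ℂ) : Prop :=
  ∀ (q : ℕ) [NeZero q], (q : ℝ) ≤ (P : ℝ) ^ (1 / 2 - ρ) → ∀ (k : ℕ) (h : ℤ) (β : ℝ),
    Real.log P ^ C ≤ k → (q : ℝ) * k * Real.log P ^ C ≤ P → IsCoprime h (k : ℤ) →
    |q * β - h / k| ≤ 1 / (k : ℝ) ^ 2 →
    ∑ χ : DirichletCharacter ℂ q, ‖cs q P G β χ‖ ^ 2 ≤ (P : ℝ) ^ 2 / Real.log P ^ A

/-- the sizes -/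
structure Par7 (ρ : ℝ) (N T : ℕ) (c1 c2 c3 d : ℤ) (P1 P2 P3 : ℕ) : Prop where
  n1 : c1 ≠ 0
  n2 : c2 ≠ 0
  n3 : c3 ≠ 0
  u1 : c1.natAbs * P1 ≤ N
  u2 : c2.natAbs * P2 ≤ N
  u3 : c3.natAbs * P3 ≤ N
  v1 : N < 2 * (c1.natAbs * P1)
  v2 : N < 2 * (c2.natAbs * P2)
  v3 : N < 2 * (c3.natAbs * P3)
  hd : 3 * |d| ≤ N
  q1 : ((c2.natAbs * c3.natAbs : ℕ) : ℝ) ≤ (P1 : ℝ) ^ (1 / 2 - ρ)
  q2 : ((c1.natAbs * c3.natAbs : ℕ) : ℝ) ≤ (P2 : ℝ) ^ (1 / 2 - ρ)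
  q3 : ((c1.natAbs * c2.natAbs : ℕ) : ℝ) ≤ (P3 : ℝ) ^ (1 / 2 - ρ)
  g12 : IsCoprime c1 c2
  g13 : IsCoprime c1 c3
  g23 : IsCoprime c2 c3
  gd : ((Nat.gcd d.natAbs (c1.natAbs * c2.natAbs * c3.natAbs) : ℕ) : ℝ) ≤ Real.log N ^ T

/-- TPW: the pointwise estimate of the ternary sum on the major arcs -/
def TPWStm : Prop := ∀ (A T : ℕ) (ρ : ℝ), 0 < ρ → ∀ C₁ : ℕ, ∃ A₂ : ℕ, ∀ C₃ : ℕ, ∃ U N₀ : ℕ,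
  ∀ N : ℕ, N₀ ≤ N → ∀ {c1 c2 c3 d : ℤ} {P1 P2 P3 : ℕ}, Par7 ρ N T c1 c2 c3 d P1 P2 P3 → ∀ G1 G2 G3 : ℕ → ℂ,
  Str (ρ / 2) A₂ (C₁ + 1) C₃ P1 G1 → Str (ρ / 2) A₂ (C₁ + 1) C₃ P2 G2 →
  Str (ρ / 2) A₂ (C₁ + 1) C₃ P3 G3 →
  (∀ α : ℝ, ‖∑ n ∈ Icc 1 P1, G1 n * ee (n * α)‖ ≤ P1 / Real.log P1 ^ U) →
  (∀ q : ℕ, 1 ≤ q → q ≤ P1 → ∑ n ∈ (Icc 1 P1).filter (fun n => ¬ n.Coprime q), ‖G1 n‖ ≤ P1 / Real.log P1 ^ U) →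
  ∀ (k : ℕ) [NeZero (k * c2.natAbs * c3.natAbs)] [NeZero (k * c1.natAbs * c3.natAbs)]
    [NeZero (k * c1.natAbs * c2.natAbs)], 1 ≤ k → (k : ℝ) ≤ Real.log N ^ C₁ →
  ∀ d' : ZMod (k * c1.natAbs * c2.natAbs * c3.natAbs),
    ((d'.val : ℕ) : ZMod (1 * c1.natAbs * c2.natAbs * c3.natAbs)) = (d : ZMod (1 * c1.natAbs * c2.natAbs * c3.natAbs)) →
  ∀ η : ℝ, |c1 * η| ≤ Real.log P1 ^ (C₁ + 1) / P1 → |c2 * η| ≤ Real.log P2 ^ (C₁ + 1) / P2 →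
    |c3 * η| ≤ Real.log P3 ^ (C₁ + 1) / P3 →
  ‖T3 c1 c2 c3 k d' (cl _ P1 G1 (c1 * η)) (cl _ P2 G2 (c2 * η)) (cl _ P3 G3 (c3 * η))‖ ≤
    (1 / Real.log N ^ A) *
      (P1 / Real.sqrt (c2.natAbs * c3.natAbs) *
        (Real.sqrt (∑ x, ‖cl (k * c1.natAbs * c3.natAbs) P2 G2 (c2 * η) x‖ ^ 2) *
          Real.sqrt (∑ x, ‖cl (k * c1.natAbs * c2.natAbs) P3 G3 (c3 * η) x‖ ^ 2)) +
       P2 / Real.sqrt (c1.natAbs * c3.natAbs) *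
        (Real.sqrt (∑ x, ‖cl (k * c2.natAbs * c3.natAbs) P1 G1 (c1 * η) x‖ ^ 2) *
          Real.sqrt (∑ x, ‖cl (k * c1.natAbs * c2.natAbs) P3 G3 (c3 * η) x‖ ^ 2)) +
       P3 / Real.sqrt (c1.natAbs * c2.natAbs) *
        (Real.sqrt (∑ x, ‖cl (k * c2.natAbs * c3.natAbs) P1 G1 (c1 * η) x‖ ^ 2) *
          Real.sqrt (∑ x, ‖cl (k * c1.natAbs * c3.natAbs) P2 G2 (c2 * η) x‖ ^ 2)))

/-- TERN: the error term of the ternary equation -/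
def TernStm : Prop := ∀ (A T : ℕ) (ρ : ℝ), 0 < ρ → ∃ A₁ : ℕ, ∀ C₁ : ℕ, ∃ A₂ : ℕ, ∀ C₃ : ℕ, ∃ U N₀ : ℕ,
  ∀ N : ℕ, N₀ ≤ N → ∀ {c1 c2 c3 d : ℤ} {P1 P2 P3 : ℕ}, Par7 ρ N T c1 c2 c3 d P1 P2 P3 → ∀ G1 G2 G3 : ℕ → ℂ,
  Mnr (ρ / 2) A₁ C₁ P1 G1 → Str (ρ / 2) A₂ (C₁ + 1) C₃ P1 G1 → Str (ρ / 2) A₂ (C₁ + 1) C₃ P2 G2 →
  Str (ρ / 2) A₂ (C₁ + 1) C₃ P3 G3 →
  (∀ α : ℝ, ‖∑ n ∈ Icc 1 P1, G1 n * ee (n * α)‖ ≤ P1 / Real.log P1 ^ U) →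
  (∀ q : ℕ, 1 ≤ q → q ≤ P1 → ∑ n ∈ (Icc 1 P1).filter (fun n => ¬ n.Coprime q), ‖G1 n‖ ≤ P1 / Real.log P1 ^ U) →
  ‖SS3 c1 c2 c3 d P1 P2 P3 G1 G2 G3‖ ≤
    (N : ℝ) ^ 2 / (c1.natAbs * c2.natAbs * c3.natAbs) / Real.log N ^ A

end Pool.Agent.Y883.GJ
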