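import Pool.Agent.Y883.GJ.Stm3
import Pool.Agent.Y883.T6.Err6

set_option autoImplicit false

/-! Statements of project GJ, fourth part: the sieve model in the ternary equation. -/

namespace Pool.Agent.Y883.GJ

open Finset
open Pool.Agent.H373R2.T7 (lamz)
open Pool.Agent.Y883.T6 (S3 zP)

/-- HOLD: the trivial estimate in square mean -/
def HoldStm : Prop := ∀ (c1 c2 c3 d : ℤ) (P1 P2 P3 : ℕ) (G1 G2 G3 : ℕ → ℂ), c1 ≠ 0 → c2 ≠ 0 → c3 ≠ 0 →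
  IsCoprime c1 c2 → IsCoprime c1 c3 → IsCoprime c2 c3 →
  ‖SS3 c1 c2 c3 d P1 P2 P3 G1 G2 G3‖ ^ 2 ≤ ((P1 : ℝ) / (c2.natAbs * c3.natAbs) + 1) *
    (∑ n ∈ Icc 1 P1, ‖G1 n‖ ^ 2) * (∑ n ∈ Icc 1 P2, ‖G2 n‖ ^ 2) * (∑ n ∈ Icc 1 P3, ‖G3 n‖ ^ 2)

/-- ERR7: the primes may be replaced by the sieve models -/
def Err7Stm : Prop := ∀ (A T B₀ : ℕ) (ρ : ℝ), 0 < ρ → ∃ B : ℕ, B₀ ≤ B ∧ ∃ N₀ : ℕ, ∀ N : ℕ, N₀ ≤ N →
  ∀ {c1 c2 c3 d : ℤ} {P1 P2 P3 : ℕ}, Par7 ρ N T c1 c2 c3 d P1 P2 P3 →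
  |S3 c1 c2 c3 d P1 P2 P3 (fun n => ArithmeticFunction.vonMangoldt n) (fun n => ArithmeticFunction.vonMangoldt n)
      (fun n => ArithmeticFunction.vonMangoldt n) -
    S3 c1 c2 c3 d P1 P2 P3 (fun n => lamz (zP B P1) n) (fun n => lamz (zP B P2) n)
      (fun n => lamz (zP B P3) n)| ≤
    (N : ℝ) ^ 2 / (c1.natAbs * c2.natAbs * c3.natAbs) / Real.log N ^ A

end Pool.Agent.Y883.GJ
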