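import Pool.Agent.Y883.GJ.Asm
import Pool.Agent.Y883.GJ.Stm3
import Pool.Agent.Y883.GJ.Stm4
import Pool.Agent.Y258.GJ.Tpw
import Pool.Agent.Y445.GJ.TNorm
import Pool.Agent.Y702.GJ.TJac
import Pool.Agent.Y730.GJ.TLift
import Pool.Agent.Y756.GJ.Hold
import Pool.Agent.Y898.GJ.Tern
import Pool.Agent.Y949.GJ.Err7

/-! Assembly: the ternary equation. -/

namespace Pool.Agent.Y883.GJ

/-- the pointwise bound on the major arcs, three factors -/
theorem tpw_all : TPWStm :=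
  Pool.Agent.Y258.GJ.tPW Pool.Agent.Y297.GJ.orth Pool.Agent.Y812.GJ.l2 Pool.Agent.Y185.GJ.smallC
    Pool.Agent.Y812.GJ.nonU Pool.Agent.Y445.GJ.tNorm Pool.Agent.Y702.GJ.tJac

/-- the ternary error term -/
theorem tern_all : TernStm :=
  Pool.Agent.Y898.GJ.tern tpw_all Pool.Agent.Y445.GJ.tNorm Pool.Agent.Y730.GJ.tLift Pool.Agent.Y730.GJ.tPars
    Pool.Agent.Y297.GJ.orth Pool.Agent.Y812.GJ.nonU

/-- the error term of the equation -/
theorem err7_all : Err7Stm :=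
  Pool.Agent.Y949.GJ.err7 tern_all majL_all majH_all minF_all model_all Pool.Agent.Y756.GJ.hold

end Pool.Agent.Y883.GJ
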