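import Pool.Agent.Y883.GJ.Stm
import Pool.Agent.Y883.T4.Gold

set_option autoImplicit false

/-! The binary Goldbach problem in the residue classes of every modulus: the number of exceptions. -/

namespace Pool.Agent.Y883.GJ

open Finset
open Pool.Agent.H373R2.T7 (lamI lamzI lamz ev_L')
open Pool.Agent.W93.GB (Good good_of)
open Pool.Agent.Y883.T3
open Pool.Agent.Y883.T4 (badc class_le)

/-- the convolution -/
noncomputable def hh (N z r n : ℕ) : ℂ :=
  ∑ b ∈ Icc 1 N, ∑ c ∈ Icc 1 N, if b + c = n then LA b * FF z r c else 0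

lemma hh_near (N z r n : ℕ) (_hN : 1 ≤ N) (hn : n ≤ N) :
    |∑ b ∈ Icc 1 N, ArithmeticFunction.vonMangoldt b * (lamI ((n : ℤ) - b) - lamzI z ((n : ℤ) - b))| ≤
      ‖hh N z r n‖ + Real.log N * ∑ c ∈ Icc 1 N, |lamz z c - lsh z r c| := by
  classical
  have hlog : 0 ≤ Real.log N := Real.log_natCast_nonneg _
  have h1 : ∀ b ∈ Icc 1 N, ArithmeticFunction.vonMangoldt b * (lamI ((n : ℤ) - b) - lamzI z ((n : ℤ) - b)) =
      ∑ c ∈ Icc 1 N, if b + c = n then ArithmeticFunction.vonMangoldt b *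
        (ArithmeticFunction.vonMangoldt c - lamz z c) else 0 := by
    intro b hb
    rw [mem_Icc] at hb
    rcases lt_or_ge b n with hbn | hbn
    · obtain ⟨c, hc⟩ : ∃ c, c = n - b := ⟨_, rfl⟩
      rw [sum_eq_single c]
      · rw [if_pos (by omega)]
        have e1 : ((n : ℤ) - b) = (c : ℤ) := by omega
        have e2 : (1 : ℤ) ≤ c := by omega
        rw [e1]
        unfold lamI lamzI
        rw [if_pos e2, if_pos e2, Int.toNat_natCast]
      · intro c' _ hne
        rw [if_neg (by omega)]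
      · intro hcn
        exact absurd (mem_Icc.2 ⟨by omega, by omega⟩) hcn
    · rw [sum_eq_zero]
      · unfold lamI lamzI
        rw [if_neg (by omega), if_neg (by omega)]
        ring
      · intro c hc
        rw [mem_Icc] at hc
        rw [if_neg (by omega)]
  have h2 : ∑ b ∈ Icc 1 N, ArithmeticFunction.vonMangoldt b * (lamI ((n : ℤ) - b) - lamzI z ((n : ℤ) - b)) =
      ∑ b ∈ Icc 1 N, ∑ c ∈ Icc 1 N, (if b + c = n then ArithmeticFunction.vonMangoldt b *
        (ArithmeticFunction.vonMangoldt c - lsh z r c) else 0) +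
      ∑ b ∈ Icc 1 N, ∑ c ∈ Icc 1 N, (if b + c = n then ArithmeticFunction.vonMangoldt b *
        (lsh z r c - lamz z c) else 0) := by
    rw [sum_congr rfl h1, ← sum_add_distrib]
    apply sum_congr rfl
    intro b _
    rw [← sum_add_distrib]
    apply sum_congr rfl
    intro c _
    split_ifs
    · ring
    · ring
  have h3 : ((∑ b ∈ Icc 1 N, ∑ c ∈ Icc 1 N, (if b + c = n then ArithmeticFunction.vonMangoldt b *
        (ArithmeticFunction.vonMangoldt c - lsh z r c) else 0) : ℝ) : ℂ) = hh N z r n := by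
    unfold hh LA FF
    push_cast
    apply sum_congr rfl
    intro b _
    apply sum_congr rfl
    intro c _
    split_ifs <;> simp
  have h4 : |∑ b ∈ Icc 1 N, ∑ c ∈ Icc 1 N, (if b + c = n then ArithmeticFunction.vonMangoldt b *
        (ArithmeticFunction.vonMangoldt c - lsh z r c) else 0)| = ‖hh N z r n‖ := by
    rw [← h3, Complex.norm_real, Real.norm_eq_abs]
  have h5 : |∑ b ∈ Icc 1 N, ∑ c ∈ Icc 1 N, (if b + c = n then ArithmeticFunction.vonMangoldt b *
        (lsh z r c - lamz z c) else 0)| ≤ Real.log N * ∑ c ∈ Icc 1 N, |lamz z c - lsh z r c| := by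
    rw [sum_comm]
    refine (abs_sum_le_sum_abs _ _).trans ?_
    rw [mul_sum]
    apply sum_le_sum
    intro c hc
    rw [mem_Icc] at hc
    refine (abs_sum_le_sum_abs _ _).trans ?_
    have h6 : ∀ b ∈ Icc 1 N, |(if b + c = n then ArithmeticFunction.vonMangoldt b *
        (lsh z r c - lamz z c) else 0)| ≤ if b = n - c then Real.log N * |lamz z c - lsh z r c| else 0 := by
      intro b hb
      rw [mem_Icc] at hb
      by_cases hbc : b + c = n
      · rw [if_pos hbc, if_pos (by omega), abs_mul, abs_sub_comm (lsh z r c)]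
        apply mul_le_mul_of_nonneg_right _ (abs_nonneg _)
        rw [abs_of_nonneg ArithmeticFunction.vonMangoldt_nonneg]
        refine ArithmeticFunction.vonMangoldt_le_log.trans ?_
        exact Real.log_le_log (by exact_mod_cast hb.1) (by exact_mod_cast hb.2)
      · rw [if_neg hbc, abs_zero]
        split_ifs
        · positivity
        · exact le_rfl
    refine (sum_le_sum h6).trans ?_
    rw [sum_ite_eq']
    split_ifs
    · exact le_rfl
    · positivity
  rw [h2]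
  refine (abs_add_le _ _).trans ?_
  linarith

theorem gold_every (hcore : CoreStm) (hmodel : ModelStm) (ε : ℝ) (hε : 0 < ε) (ρ : ℝ) (hρ : 0 < ρ) (A T : ℕ) :
    ∃ N₀ : ℕ, ∀ N : ℕ, N₀ ≤ N → ∀ q : ℕ, 1 ≤ q → (q : ℝ) ≤ (N : ℝ) ^ (1 / 2 - ρ) → ∀ a : ℕ,
      (Nat.gcd a q : ℝ) ≤ Real.log N ^ T →
        ((badc (Good ε) N q a).card : ℝ) ≤ (N : ℝ) / (q * Real.log N ^ A) := by
  classical
  obtain ⟨U, N₁, h1⟩ := hcore (3 * A + 20) T ρ hρ
  obtain ⟨U', hU'⟩ : ∃ U', U' = max U (A + 6) := ⟨_, rfl⟩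
  obtain ⟨B, hB⟩ := hmodel U'
  obtain ⟨B1, hB1⟩ : ∃ B1, B1 = max B 3 := ⟨_, rfl⟩
  obtain ⟨N₂, h2⟩ := hB (B1 + 1)
  obtain ⟨N₃, h3⟩ := good_of ε hε 1 (A + 1) (B1 + 1)
  obtain ⟨N₄, h4⟩ := ev_L' 16
  obtain ⟨N₅, h5⟩ := ev_log_rpow (A + 1) 1 (1 / 2) (by norm_num)
  refine ⟨N₁ + N₂ + N₃ + N₄ + N₅ + 3, fun N hN q hq1 hqN a ha => ?_⟩
  have : NeZero q := ⟨by omega⟩
  have c1 := h1 N (by omega) q hqN
  have c2 := h2 N (by omega)
  have c3 := h3 N (by omega)
  have hL := h4 N (by omega)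
  have c5 := h5 N (by omega)
  have hN1 : 1 ≤ N := by omega
  have hN0 : (0 : ℝ) < N := by exact_mod_cast hN1
  have hN1r : (1 : ℝ) ≤ N := by exact_mod_cast hN1
  obtain ⟨L, hLd⟩ : ∃ L, L = Real.log (N : ℝ) := ⟨_, rfl⟩
  have hnear := fun z r n hn => hh_near N z r n hN1 hn
  rw [← hLd] at c1 c2 c3 hL c5 ha ⊢
  have hL0 : 0 < L := by linarith
  have hL1 : 1 ≤ L := by linarith
  have hq0 : (0 : ℝ) < q := by exact_mod_cast hq1
  -- the parameter `z`
  obtain ⟨z, hz⟩ : ∃ z, z = ⌈L ^ B1⌉₊ := ⟨_, rfl⟩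
  have hzlo : L ^ B1 ≤ z := by rw [hz]; exact Nat.le_ceil _
  have hL1B : 1 ≤ L ^ B1 := one_le_pow₀ hL1
  have hzhi : (z : ℝ) ≤ L ^ (B1 + 1) := by
    have := Nat.ceil_lt_add_one (show 0 ≤ L ^ B1 by positivity)
    rw [← hz] at this
    calc (z : ℝ) ≤ L ^ B1 + 1 := this.le
      _ ≤ L ^ B1 + L ^ B1 := by linarith
      _ = 2 * L ^ B1 := by ring
      _ ≤ L * L ^ B1 := mul_le_mul_of_nonneg_right (by linarith) (by positivity)
      _ = L ^ (B1 + 1) := by ring
  have hzB : L ^ B ≤ z := (pow_le_pow_right₀ hL1 (by rw [hB1]; exact le_max_left _ _)).trans hzlo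
  have hz3 : L ^ 3 ≤ z := (pow_le_pow_right₀ hL1 (by rw [hB1]; exact le_max_right _ _)).trans hzlo
  obtain ⟨r, hPar, hl1⟩ := c2 z hzB hzhi
  have hU1 : L ^ U ≤ L ^ U' := pow_le_pow_right₀ hL1 (by rw [hU']; exact le_max_left _ _)
  have hU2 : L ^ (A + 6) ≤ L ^ U' := pow_le_pow_right₀ hL1 (by rw [hU']; exact le_max_right _ _)
  have hdiv : (N : ℝ) / L ^ U' ≤ N / L ^ U := div_le_div_of_nonneg_left hN0.le (by positivity) hU1
  have hPar' : Par U N z r := by
    refine ⟨hPar.hD, hPar.hV, hPar.hT, fun α => ?_, fun q h h' => ?_, fun q h h' => ?_⟩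
    · have := hPar.hS α
      rw [← hLd] at this ⊢
      exact this.trans hdiv
    · have := hPar.hC q h h'
      rw [← hLd] at this ⊢
      exact this.trans hdiv
    · have := hPar.hL q h h'
      rw [← hLd] at this ⊢
      exact this.trans hdiv
  -- the size of q
  have hqs : (q : ℝ) * L ^ (A + 1) ≤ N := by
    have e1 : (q : ℝ) ≤ (N : ℝ) ^ (1 / 2 : ℝ) :=
      hqN.trans (Real.rpow_le_rpow_of_exponent_le hN1r (by linarith))
    calc (q : ℝ) * L ^ (A + 1) ≤ (N : ℝ) ^ (1 / 2 : ℝ) * (N : ℝ) ^ (1 / 2 : ℝ) := by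
          rw [one_mul] at c5
          exact mul_le_mul e1 c5 (by positivity) (by positivity)
      _ = N := by rw [← Real.rpow_add hN0]; norm_num
  have hgcd : ((Nat.gcd (ZMod.val (a : ZMod q)) q : ℕ) : ℝ) ≤ L ^ T := by
    rw [ZMod.val_natCast, ← Nat.gcd_rec, Nat.gcd_comm]
    exact ha
  have hms := c1 z r hPar' (a : ZMod q) hgcd
  obtain ⟨Bd, hBd⟩ : ∃ Bd, Bd = badc (Good ε) N q a := ⟨_, rfl⟩
  rw [← hBd]
  have hmem : ∀ n ∈ Bd, 1 ≤ n ∧ n ≤ N ∧ 2 ∣ n ∧ n % q = a % q ∧ ¬ Good ε n := by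
    intro n hn
    rw [hBd] at hn
    unfold badc at hn
    rw [mem_filter, mem_Icc] at hn
    exact ⟨hn.1.1, hn.1.2, hn.2.1, hn.2.2.1, hn.2.2.2⟩
  obtain ⟨B1s, hB1s⟩ : ∃ B1s, B1s = Bd.filter (fun n : ℕ => (n : ℝ) < N / L ^ (A + 1)) := ⟨_, rfl⟩
  obtain ⟨B2s, hB2s⟩ : ∃ B2s, B2s = Bd.filter (fun n : ℕ => ¬ (n : ℝ) < N / L ^ (A + 1)) := ⟨_, rfl⟩
  have hcard : B1s.card + B2s.card = Bd.card := by
    rw [hB1s, hB2s]; exact card_filter_add_card_filter_not _
  have hone : (1 : ℝ) ≤ N / (q * L ^ (A + 1)) := by rw [one_le_div (by positivity)]; exact hqs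
  have hB1c : (B1s.card : ℝ) ≤ 2 * (N / (q * L ^ (A + 1))) := by
    have h3 := class_le N q a hq1 B1s (N / L ^ (A + 1)) (by positivity) (by
      intro n hn
      rw [hB1s, mem_filter] at hn
      obtain ⟨a1, a2, a3, a4, a5⟩ := hmem n hn.1
      exact ⟨a4, hn.2.le⟩)
    have e1 : (N : ℝ) / L ^ (A + 1) / q = N / (q * L ^ (A + 1)) := by rw [div_div, mul_comm]
    rw [e1] at h3
    linarith
  have hterm : ∀ n ∈ B2s, (N : ℝ) / (2 * L ^ (A + 2)) ≤ ‖hh N z r n‖ := by
    intro n hn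
    rw [hB2s, mem_filter, not_lt] at hn
    obtain ⟨a1, a2, a3, a4, a5⟩ := hmem n hn.1
    have h3 : (N : ℝ) / L ^ (A + 2) < |∑ b ∈ Icc 1 (1 * N), ArithmeticFunction.vonMangoldt b * (lamI ((n : ℤ) - b) - lamzI z ((n : ℤ) - b))| := by
      by_contra hc
      rw [not_lt] at hc
      exact a5 (c3 z hz3 hzhi n a3 hn.2 (by omega) hc)
    rw [one_mul] at h3
    have h4 := hnear z r n a2
    rw [← hLd] at h4
    have h6 : L * ∑ c ∈ Icc 1 N, |lamz z c - lsh z r c| ≤ N / (2 * L ^ (A + 2)) := by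
      calc L * ∑ c ∈ Icc 1 N, |lamz z c - lsh z r c| ≤ L * (N / L ^ (A + 6)) := by
            apply mul_le_mul_of_nonneg_left _ hL0.le
            exact hl1.trans (div_le_div_of_nonneg_left hN0.le (by positivity) hU2)
        _ = N / L ^ (A + 5) := by rw [pow_succ L (A + 5)]; field_simp
        _ ≤ N / (2 * L ^ (A + 2)) := by
            apply div_le_div_of_nonneg_left hN0.le (by positivity)
            rw [show A + 5 = 3 + (A + 2) by ring, pow_add L 3 (A + 2)]
            apply mul_le_mul_of_nonneg_right _ (by positivity)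
            have : L ^ 1 ≤ L ^ 3 := pow_le_pow_right₀ hL1 (by norm_num)
            linarith [pow_one L]
    have h7 : (N : ℝ) / L ^ (A + 2) = 2 * (N / (2 * L ^ (A + 2))) := by field_simp
    linarith
  have hsum : (B2s.card : ℝ) * (N / (2 * L ^ (A + 2))) ^ 2 ≤ (N : ℝ) ^ 3 / (q * L ^ (3 * A + 20)) := by
    refine le_trans ?_ hms
    calc (B2s.card : ℝ) * (N / (2 * L ^ (A + 2))) ^ 2 = ∑ _n ∈ B2s, ((N : ℝ) / (2 * L ^ (A + 2))) ^ 2 := by
          rw [sum_const, nsmul_eq_mul]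
      _ ≤ ∑ n ∈ B2s, ‖hh N z r n‖ ^ 2 := by
          apply sum_le_sum
          intro n hn
          exact pow_le_pow_left₀ (by positivity) (hterm n hn) 2
      _ ≤ ∑ n ∈ (Icc 1 (2 * N)).filter (fun n : ℕ => (n : ZMod q) = (a : ZMod q)), ‖hh N z r n‖ ^ 2 := by
          apply sum_le_sum_of_subset_of_nonneg
          · intro n hn
            rw [hB2s, mem_filter] at hn
            obtain ⟨a1, a2, a3, a4, a5⟩ := hmem n hn.1
            rw [mem_filter, mem_Icc]
            exact ⟨⟨a1, by omega⟩, (ZMod.natCast_eq_natCast_iff' n a q).2 a4⟩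
          · intro n _ _
            positivity
  have hB2c : (B2s.card : ℝ) ≤ N / (q * L ^ (A + 2)) := by
    have h4 : (N : ℝ) ^ 3 / (q * L ^ (3 * A + 20)) ≤ (N / (q * L ^ (A + 2))) * (N / (2 * L ^ (A + 2))) ^ 2 := by
      have e1 : (N / (q * L ^ (A + 2))) * (N / (2 * L ^ (A + 2))) ^ 2 = (N : ℝ) ^ 3 / (q * (4 * L ^ (3 * A + 6))) := by
        rw [div_pow, div_mul_div_comm]
        congr 1 <;> ring
      rw [e1]
      apply div_le_div_of_nonneg_left (by positivity) (by positivity)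
      apply mul_le_mul_of_nonneg_left _ hq0.le
      rw [show 3 * A + 20 = 14 + (3 * A + 6) by ring, pow_add L 14]
      apply mul_le_mul_of_nonneg_right _ (by positivity)
      have : L ^ 1 ≤ L ^ 14 := pow_le_pow_right₀ hL1 (by norm_num)
      linarith [pow_one L]
    exact le_of_mul_le_mul_right (hsum.trans h4) (by positivity)
  have h3 : (B1s.card : ℝ) + B2s.card = Bd.card := by exact_mod_cast hcard
  have h4 : (N : ℝ) / (q * L ^ (A + 1)) = N / (q * L ^ A) / L := by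
    rw [pow_succ, ← mul_assoc, ← div_div]
  have h5 : (N : ℝ) / (q * L ^ (A + 2)) = N / (q * L ^ A) / L / L := by
    rw [pow_succ, pow_succ, ← mul_assoc, ← mul_assoc, ← div_div, ← div_div]
  have h6 : 0 ≤ (N : ℝ) / (q * L ^ A) := by positivity
  have h7 : (N : ℝ) / (q * L ^ A) / L ≤ N / (q * L ^ A) / 16 := div_le_div_of_nonneg_left h6 (by norm_num) hL
  have h8 : (N : ℝ) / (q * L ^ A) / L / L ≤ N / (q * L ^ A) / L := div_le_self (by positivity) hL1
  rw [h4] at hB1c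
  rw [h5] at hB2c
  linarith

end Pool.Agent.Y883.GJ
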