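import Pool.Agent.Y883.GJ.Stm

set_option autoImplicit false

/-! Statements of project GJ, second part: differences of primes. -/

namespace Pool.Agent.Y883.GJ

open Finset
open Pool.Agent.H807R2.Dav (ee)

/-- PWC: the pointwise estimate on the major arcs, correlations -/
def PWCStm : Prop := ∀ (A C T : ℕ) (ρ : ℝ), 0 < ρ → ∃ U N₀ : ℕ, ∀ N : ℕ, N₀ ≤ N →
  ∀ (q : ℕ) [NeZero q], (q : ℝ) ≤ (N : ℝ) ^ (1 / 2 - ρ) → ∀ z r : ℕ, Par U N z r →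
  ∀ a : ZMod q, (Nat.gcd a.val q : ℝ) ≤ Real.log N ^ T → ∀ η : ℝ, |η| ≤ Real.log N ^ C / N →
    ‖∑ l : ZMod q, cl q N LA η l * (starRingEnd ℂ) (cl q N (FF z r) η (l - a))‖ ^ 2 ≤
      (N : ℝ) ^ 2 / (q * Real.log N ^ A) *
        (∑ l : ZMod q, ‖cl q N LA η l‖ ^ 2 + ∑ l : ZMod q, ‖cl q N (FF z r) η l‖ ^ 2)

/-- LIFTC: from the modulus `q` to the modulus `r q`, correlations -/
def LiftCStm : Prop := ∀ (q r N : ℕ) [NeZero q] [NeZero (r * q)] (G F : ℕ → ℂ) (h : ℤ) (β η : ℝ),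
  β = h / (r * q : ℕ) + η →
  (∀ a : ZMod q, ‖∑ l : ZMod q, cl q N G β l * (starRingEnd ℂ) (cl q N F β (l - a))‖ ≤
    ∑ a' ∈ univ.filter (fun a' : ZMod (r * q) => ((a'.val : ℕ) : ZMod q) = a),
      ‖∑ l : ZMod (r * q), cl (r * q) N G η l * (starRingEnd ℂ) (cl (r * q) N F η (l - a'))‖)

/-- PARSC: Parseval, correlations -/
def ParsCStm : Prop := ∀ (q N : ℕ) [NeZero q] (G F : ℕ → ℂ), 1 ≤ N → ∀ a : ZMod q,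
  ((2 * N + 1 : ℕ) : ℝ) * ∑ k ∈ (Icc (-(N : ℤ)) N).filter (fun k : ℤ => (k : ZMod q) = a),
      ‖∑ b ∈ Icc 1 N, ∑ c ∈ Icc 1 N, if (b : ℤ) - c = k then G b * (starRingEnd ℂ) (F c) else 0‖ ^ 2 =
    ∑ t ∈ range (2 * N + 1), ‖∑ l : ZMod q, cl q N G ((t : ℝ) / (2 * N + 1 : ℕ)) l *
      (starRingEnd ℂ) (cl q N F ((t : ℝ) / (2 * N + 1 : ℕ)) (l - a))‖ ^ 2

/-- COREC: the mean square in a residue class, correlations -/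
def CoreCStm : Prop := ∀ (A T : ℕ) (ρ : ℝ), 0 < ρ → ∃ U N₀ : ℕ, ∀ N : ℕ, N₀ ≤ N →
  ∀ (q : ℕ) [NeZero q], (q : ℝ) ≤ (N : ℝ) ^ (1 / 2 - ρ) → ∀ z r : ℕ, Par U N z r →
  ∀ a : ZMod q, (Nat.gcd a.val q : ℝ) ≤ Real.log N ^ T →
    ∑ k ∈ (Icc (-(N : ℤ)) N).filter (fun k : ℤ => (k : ZMod q) = a),
      ‖∑ b ∈ Icc 1 N, ∑ c ∈ Icc 1 N, if (b : ℤ) - c = k then LA b * FF z r c else 0‖ ^ 2 ≤
        (N : ℝ) ^ 3 / (q * Real.log N ^ A)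

end Pool.Agent.Y883.GJ
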