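import Pool.Agent.Y883.GJ.Asm
import Pool.Agent.Y883.GJ.Stm2
import Pool.Agent.Y261.GJ.PWC
import Pool.Agent.Y614.GJ.CoreC
import Pool.Agent.Y697.GJ.LiftC

/-! Assembly: the correlations. -/

namespace Pool.Agent.Y883.GJ

/-- the pointwise bound on the major arcs, correlations -/
theorem pwC_all : PWCStm :=
  Pool.Agent.Y261.GJ.pwC majL_all majH_all Pool.Agent.Y297.GJ.orth Pool.Agent.Y812.GJ.l2
    Pool.Agent.Y185.GJ.smallC Pool.Agent.Y662.GJ.jac Pool.Agent.Y812.GJ.nonU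

/-- the second moment of the error, correlations -/
theorem coreC_all : CoreCStm :=
  Pool.Agent.Y614.GJ.CoreC.coreC pwC_all minF_all Pool.Agent.Y697.GJ.liftC Pool.Agent.Y708.GJ.lift
    Pool.Agent.Y697.GJ.parsC Pool.Agent.Y872.GJ.pars Pool.Agent.Y297.GJ.orth Pool.Agent.Y812.GJ.l2
    Pool.Agent.Y812.GJ.nonU

end Pool.Agent.Y883.GJ
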