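import Pool.Agent.Y883.GJ.Pairs

set_option autoImplicit false

/-! Prime pairs with a difference in a residue class of an arbitrary modulus: the number of exceptions. -/

namespace Pool.Agent.Y883.GJ

open Finset
open Pool.Agent.H373R2.T7
open Pool.Agent.W93.GB (sh singZ_near one_le_sing)
open Pool.Agent.Y883.T3
open Pool.Agent.Y883.T4 (class_le)

/-- the members of a residue class in a short interval -/
lemma class_le' (N q a : ℕ) (hq : 1 ≤ q) (S : Finset ℕ) (Y : ℝ) (hY : 0 ≤ Y)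
    (hS : ∀ n ∈ S, n % q = a % q ∧ n ≤ N ∧ (N : ℝ) - n ≤ Y) : (S.card : ℝ) ≤ Y / q + 1 := by
  classical
  rcases S.eq_empty_or_nonempty with h0 | ⟨n₀, hn₀⟩
  · rw [h0, card_empty, Nat.cast_zero]
    positivity
  obtain ⟨b1, b2, b3⟩ := hS n₀ hn₀
  have h1 : (S.image (fun n => N - n)).card = S.card := by
    apply card_image_of_injOn
    intro x hx y hy hxy
    have := hS x (mem_coe.1 hx)
    have := hS y (mem_coe.1 hy)
    simp only at hxy
    omega
  rw [← h1]
  refine class_le N q (N - n₀) hq _ Y hY ?_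
  intro m hm
  rw [mem_image] at hm
  obtain ⟨n, hn, rfl⟩ := hm
  obtain ⟨c1, c2, c3⟩ := hS n hn
  refine ⟨?_, ?_⟩
  · have e1 : n ≡ n₀ [MOD q] := by
      unfold Nat.ModEq
      rw [c1, b1]
    have e2 : (N - n) + n ≡ (N - n₀) + n₀ [MOD q] := by
      rw [Nat.sub_add_cancel c2, Nat.sub_add_cancel b2]
    exact Nat.ModEq.add_right_cancel e1 e2
  · rw [Nat.cast_sub c2]
    exact c3

open Classical in
/-- the exceptional differences in a residue class -/
noncomputable def badp (A N q a : ℕ) : Finset ℕ :=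
  (Icc 1 N).filter (fun h => h % q = a % q ∧ ¬ PairGood A N h)

theorem pairs_every (hcore : CoreCStm) (hmodel : ModelStm) (ρ : ℝ) (hρ : 0 < ρ) (A T : ℕ) :
    ∃ N₀ : ℕ, ∀ N : ℕ, N₀ ≤ N → ∀ q : ℕ, 1 ≤ q → (q : ℝ) ≤ (N : ℝ) ^ (1 / 2 - ρ) → ∀ a : ℕ,
      (Nat.gcd a q : ℝ) ≤ Real.log N ^ T →
        ((badp A N q a).card : ℝ) ≤ (N : ℝ) / (q * Real.log N ^ A) := by
  classical
  obtain ⟨U, N₁, h1⟩ := hcore (3 * A + 40) T ρ hρ
  obtain ⟨U', hU'⟩ : ∃ U', U' = max U (A + 12) := ⟨_, rfl⟩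
  obtain ⟨B, hB⟩ := hmodel U'
  obtain ⟨E, hE⟩ : ∃ E, E = max B (A + 12) := ⟨_, rfl⟩
  obtain ⟨N₂, h2⟩ := hB (E + 1)
  obtain ⟨N₃, h3⟩ := pair_det (A + 4) E (by rw [hE]; exact (le_max_right _ _))
  obtain ⟨N₄, h4⟩ := ev_L' 64
  obtain ⟨N₅, h5⟩ := ev_log_rpow (A + 4) 64 (1 / 2) (by norm_num)
  refine ⟨N₁ + N₂ + N₃ + N₄ + N₅ + 3, fun N hN q hq1 hqN a ha => ?_⟩
  have : NeZero q := ⟨by omega⟩
  have c1 := h1 N (by omega) q hqN
  have c2 := h2 N (by omega)
  have c3 := h3 N (by omega)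
  have hL := h4 N (by omega)
  have c5 := h5 N (by omega)
  have hN1 : 1 ≤ N := by omega
  have hN0 : (0 : ℝ) < N := by exact_mod_cast hN1
  have hN1r : (1 : ℝ) ≤ N := by exact_mod_cast hN1
  obtain ⟨L, hLd⟩ : ∃ L, L = Real.log (N : ℝ) := ⟨_, rfl⟩
  have hnear := fun z r n => hc_near N z r n hN1
  have hPS := fun h hh => PS_le N h hN1 hh
  have hgood : ∀ h, PairGood A N h ↔ (∃ S : ℝ, Filter.Tendsto (fun z => singZ (sh h) z) Filter.atTop (nhds S) ∧
    |PS N h - S * ((N : ℝ) - h)| ≤ N / Real.log N ^ A ∧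
    (S * ((N : ℝ) - h) - N / Real.log N ^ A) / Real.log N ^ 2 ≤ PC N h) ∧ (2 ∣ h → 1 ≤ PC N h) := fun h => Iff.rfl
  rw [← hLd] at c1 c2 c3 hL c5 ha hPS hgood ⊢
  have hL0 : 0 < L := by linarith
  have hL1 : 1 ≤ L := by linarith
  have hq0 : (0 : ℝ) < q := by exact_mod_cast hq1
  -- the parameter `z`
  obtain ⟨z, hz⟩ : ∃ z, z = ⌈L ^ E⌉₊ := ⟨_, rfl⟩
  have hzlo : L ^ E ≤ z := by rw [hz]; exact Nat.le_ceil _
  have hL1B : 1 ≤ L ^ E := one_le_pow₀ hL1
  have hzhi : (z : ℝ) ≤ L ^ (E + 1) := by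
    have := Nat.ceil_lt_add_one (show 0 ≤ L ^ E by positivity)
    rw [← hz] at this
    calc (z : ℝ) ≤ L ^ E + 1 := this.le
      _ ≤ L ^ E + L ^ E := by linarith
      _ = 2 * L ^ E := by ring
      _ ≤ L * L ^ E := mul_le_mul_of_nonneg_right (by linarith) (by positivity)
      _ = L ^ (E + 1) := by ring
  have hzB : L ^ B ≤ z := (pow_le_pow_right₀ hL1 (by rw [hE]; exact le_max_left _ _)).trans hzlo
  obtain ⟨r, hPar, hl1⟩ := c2 z hzB hzhi
  have hU1 : L ^ U ≤ L ^ U' := pow_le_pow_right₀ hL1 (by rw [hU']; exact le_max_left _ _)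
  have hU2 : L ^ (A + 12) ≤ L ^ U' := pow_le_pow_right₀ hL1 (by rw [hU']; exact le_max_right _ _)
  have hdiv : (N : ℝ) / L ^ U' ≤ N / L ^ U := div_le_div_of_nonneg_left hN0.le (by positivity) hU1
  have hPar' : Par U N z r := by
    refine ⟨hPar.hD, hPar.hV, hPar.hT, fun α => ?_, fun q h h' => ?_, fun q h h' => ?_⟩
    · have := hPar.hS α
      rw [← hLd] at this ⊢
      exact this.trans hdiv
    · have := hPar.hC q h h'
      rw [← hLd] at this ⊢
      exact this.trans hdiv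
    · have := hPar.hL q h h'
      rw [← hLd] at this ⊢
      exact this.trans hdiv
  -- the size of `q`
  have hsq : √(N : ℝ) = (N : ℝ) ^ (1 / 2 : ℝ) := Real.sqrt_eq_rpow _
  have hsqm : √(N : ℝ) * √(N : ℝ) = N := Real.mul_self_sqrt hN0.le
  rw [← hsq] at c5
  have hqsq : (q : ℝ) ≤ √(N : ℝ) := by
    rw [hsq]
    exact hqN.trans (Real.rpow_le_rpow_of_exponent_le hN1r (by linarith))
  have hqs : (q : ℝ) * L ^ (A + 1) ≤ N := by
    have e1 : L ^ (A + 1) ≤ √(N : ℝ) := by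
      refine le_trans ?_ c5
      have h8 : L ^ (A + 1) ≤ L ^ (A + 4) := pow_le_pow_right₀ hL1 (by omega)
      have h9 : 0 < L ^ (A + 4) := by positivity
      linarith
    calc (q : ℝ) * L ^ (A + 1) ≤ √(N : ℝ) * √(N : ℝ) :=
          mul_le_mul hqsq e1 (by positivity) (by positivity)
      _ = N := hsqm
  have hgcd : ((Nat.gcd (ZMod.val (a : ZMod q)) q : ℕ) : ℝ) ≤ L ^ T := by
    rw [ZMod.val_natCast, ← Nat.gcd_rec, Nat.gcd_comm]
    exact ha
  have hms := c1 z r hPar' (a : ZMod q) hgcd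
  obtain ⟨Bd, hBd⟩ : ∃ Bd, Bd = badp A N q a := ⟨_, rfl⟩
  rw [← hBd]
  have hmem : ∀ n ∈ Bd, 1 ≤ n ∧ n ≤ N ∧ n % q = a % q ∧ ¬ PairGood A N n := by
    intro n hn
    rw [hBd] at hn
    unfold badp at hn
    rw [mem_filter, mem_Icc] at hn
    exact ⟨hn.1.1, hn.1.2, hn.2.1, hn.2.2⟩
  obtain ⟨Y, hY⟩ : ∃ Y, Y = (N : ℝ) / L ^ (A + 1) := ⟨_, rfl⟩
  have hY0 : 0 < Y := by rw [hY]; positivity
  obtain ⟨B1, hB1⟩ : ∃ B1, B1 = Bd.filter (fun n : ℕ => (n : ℝ) < Y) := ⟨_, rfl⟩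
  obtain ⟨B2, hB2⟩ : ∃ B2, B2 = Bd.filter (fun n : ℕ => ¬ (n : ℝ) < Y) := ⟨_, rfl⟩
  obtain ⟨B3, hB3⟩ : ∃ B3, B3 = B2.filter (fun n : ℕ => (N : ℝ) - n < Y) := ⟨_, rfl⟩
  obtain ⟨B4, hB4⟩ : ∃ B4, B4 = B2.filter (fun n : ℕ => ¬ (N : ℝ) - n < Y) := ⟨_, rfl⟩
  have hcard : B1.card + B2.card = Bd.card := by
    rw [hB1, hB2]; exact card_filter_add_card_filter_not _
  have hcard2 : B3.card + B4.card = B2.card := by
    rw [hB3, hB4]; exact card_filter_add_card_filter_not _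
  have hone : (1 : ℝ) ≤ N / (q * L ^ (A + 1)) := by rw [one_le_div (by positivity)]; exact hqs
  have hYq : Y / q = N / (q * L ^ (A + 1)) := by rw [hY, div_div, mul_comm]
  have hB1c : (B1.card : ℝ) ≤ 2 * (N / (q * L ^ (A + 1))) := by
    have h3 := class_le N q a hq1 B1 Y hY0.le (by
      intro n hn
      rw [hB1, mem_filter] at hn
      obtain ⟨a1, a2, a3, a4⟩ := hmem n hn.1
      exact ⟨a3, hn.2.le⟩)
    rw [hYq] at h3
    linarith
  have hB3c : (B3.card : ℝ) ≤ 2 * (N / (q * L ^ (A + 1))) := by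
    have h3 := class_le' N q a hq1 B3 Y hY0.le (by
      intro n hn
      rw [hB3, mem_filter, hB2, mem_filter] at hn
      obtain ⟨a1, a2, a3, a4⟩ := hmem n hn.1.1
      exact ⟨a3, a2, hn.2.le⟩)
    rw [hYq] at h3
    linarith
  have hterm : ∀ n ∈ B4, (N : ℝ) / (4 * L ^ (A + 4)) ≤ ‖hc N z r n‖ := by
    intro n hn
    rw [hB4, mem_filter, hB2, mem_filter, not_lt, not_lt] at hn
    obtain ⟨⟨hn1, hn2⟩, hn3⟩ := hn
    obtain ⟨a1, a2, a3, a4⟩ := hmem n hn1
    have a2r : (n : ℝ) ≤ N := by exact_mod_cast a2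
    have hlow : (N : ℝ) / L ^ (A + 4 + 1) ≤ n := by
      refine le_trans ?_ hn2
      rw [hY]
      exact div_le_div_of_nonneg_left hN0.le (by positivity) (pow_le_pow_right₀ hL1 (by omega))
    have h3 : (N : ℝ) / (2 * L ^ (A + 4)) < |∑ b ∈ Icc 1 N, ArithmeticFunction.vonMangoldt b * (lamI ((b : ℤ) - n) - lamzI z ((b : ℤ) - n))| := by
      by_contra hc
      rw [not_lt] at hc
      obtain ⟨S, hS, hS2, hS3⟩ := c3 z hzlo hzhi n hlow a2r hc
      apply a4
      rw [hgood]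
      have hlow2 := hPS n a1
      have hS4 := (abs_le.1 hS3).1
      have e4 : (N : ℝ) / L ^ (A + 4) ≤ N / L ^ A := div_le_div_of_nonneg_left hN0.le (by positivity) (pow_le_pow_right₀ hL1 (by omega))
      -- `4 √N ≤ N / (16 L ^ (A + 4))`
      have e5 : 4 * √(N : ℝ) ≤ N / (16 * L ^ (A + 4)) := by
        rw [le_div_iff₀ (by positivity)]
        calc 4 * √(N : ℝ) * (16 * L ^ (A + 4)) = √(N : ℝ) * (64 * L ^ (A + 4)) := by ring
          _ ≤ √(N : ℝ) * √(N : ℝ) := mul_le_mul_of_nonneg_left c5 (by positivity)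
          _ = N := hsqm
      have e6 : 4 * √(N : ℝ) * L ^ 2 ≤ N / (16 * L ^ (A + 2)) := by
        calc 4 * √(N : ℝ) * L ^ 2 ≤ N / (16 * L ^ (A + 4)) * L ^ 2 := mul_le_mul_of_nonneg_right e5 (by positivity)
          _ = N / (16 * L ^ (A + 2)) := by
              rw [show A + 4 = (A + 2) + 2 by ring, pow_add L (A + 2) 2, ← mul_assoc, ← div_div,
                div_mul_cancel₀ _ (by positivity)]
      have e7 : (N : ℝ) / (16 * L ^ (A + 2)) = N / L ^ (A + 2) / 16 := by rw [div_div, mul_comm (16 : ℝ)]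
      have e8 : (N : ℝ) / L ^ (A + 4) ≤ N / L ^ (A + 2) / 16 := by
        rw [← e7]
        apply div_le_div_of_nonneg_left hN0.le (by positivity)
        rw [show A + 4 = 2 + (A + 2) by ring, pow_add L 2]
        apply mul_le_mul_of_nonneg_right _ (by positivity)
        nlinarith
      have e9 : (N : ℝ) / L ^ (A + 2) ≤ N / L ^ A := div_le_div_of_nonneg_left hN0.le (by positivity) (pow_le_pow_right₀ hL1 (by omega))
      have e10 : (N : ℝ) / L ^ (A + 2) ≤ N / L ^ (A + 1) / 64 := by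
        rw [div_div]
        apply div_le_div_of_nonneg_left hN0.le (by positivity)
        rw [show A + 2 = (A + 1) + 1 by ring, pow_succ L (A + 1)]
        exact mul_le_mul_of_nonneg_left hL (by positivity)
      have e0 : 0 < (N : ℝ) / L ^ (A + 2) := by positivity
      refine ⟨⟨S, hS, hS3.trans e4, ?_⟩, fun h2h => ?_⟩
      · rw [div_le_iff₀ (by positivity)]
        linarith
      · have f1 := hS2 h2h
        rw [← hY] at e10
        have f2 : Y / 2 ≤ S * ((N : ℝ) - n) := by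
          have f3 : 0 ≤ (N : ℝ) - n := by linarith
          have f4 := mul_le_mul_of_nonneg_right f1 f3
          linarith
        have f4 : 0 < L ^ 2 * (PC N n : ℝ) := by linarith
        have f5 : 0 < (PC N n : ℝ) := by
          by_contra hneg
          rw [not_lt] at hneg
          have : L ^ 2 * (PC N n : ℝ) ≤ 0 := mul_nonpos_of_nonneg_of_nonpos (by positivity) hneg
          linarith
        have f6 : 0 < PC N n := by exact_mod_cast f5
        exact f6
    have h4 := hnear z r n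
    rw [← hLd] at h4
    have h6 : L * ∑ c ∈ Icc 1 N, |lamz z c - lsh z r c| ≤ N / (4 * L ^ (A + 4)) := by
      calc L * ∑ c ∈ Icc 1 N, |lamz z c - lsh z r c| ≤ L * (N / L ^ (A + 12)) := by
            apply mul_le_mul_of_nonneg_left _ hL0.le
            exact hl1.trans (div_le_div_of_nonneg_left hN0.le (by positivity) hU2)
        _ = N / L ^ (A + 11) := by rw [pow_succ L (A + 11)]; field_simp
        _ ≤ N / (4 * L ^ (A + 4)) := by
            apply div_le_div_of_nonneg_left hN0.le (by positivity)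
            rw [show A + 11 = 7 + (A + 4) by ring, pow_add L 7 (A + 4)]
            apply mul_le_mul_of_nonneg_right _ (by positivity)
            have : L ^ 1 ≤ L ^ 7 := pow_le_pow_right₀ hL1 (by norm_num)
            linarith [pow_one L]
    have h7 : (N : ℝ) / (2 * L ^ (A + 4)) = 2 * (N / (4 * L ^ (A + 4))) := by field_simp; norm_num
    linarith
  have hsum : (B4.card : ℝ) * (N / (4 * L ^ (A + 4))) ^ 2 ≤ (N : ℝ) ^ 3 / (q * L ^ (3 * A + 40)) := by
    refine le_trans ?_ hms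
    calc (B4.card : ℝ) * (N / (4 * L ^ (A + 4))) ^ 2 = ∑ _n ∈ B4, ((N : ℝ) / (4 * L ^ (A + 4))) ^ 2 := by
          rw [sum_const, nsmul_eq_mul]
      _ ≤ ∑ n ∈ B4, ‖hc N z r n‖ ^ 2 := by
          apply sum_le_sum
          intro n hn
          exact pow_le_pow_left₀ (by positivity) (hterm n hn) 2
      _ = ∑ k ∈ B4.image (fun n : ℕ => (n : ℤ)), ‖hc N z r k‖ ^ 2 := by
          rw [sum_image]
          intro x _ y _ hxy
          exact Nat.cast_injective hxy
      _ ≤ ∑ k ∈ (Icc (-(N : ℤ)) N).filter (fun k : ℤ => (k : ZMod q) = (a : ZMod q)), ‖hc N z r k‖ ^ 2 := by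
          apply sum_le_sum_of_subset_of_nonneg
          · intro k hk
            rw [mem_image] at hk
            obtain ⟨n, hn, rfl⟩ := hk
            rw [hB4, mem_filter, hB2, mem_filter] at hn
            obtain ⟨a1, a2, a3, a4⟩ := hmem n hn.1.1
            rw [mem_filter, mem_Icc]
            refine ⟨⟨by omega, by exact_mod_cast a2⟩, ?_⟩
            rw [Int.cast_natCast]
            exact (ZMod.natCast_eq_natCast_iff' n a q).2 a3
          · intro n _ _
            positivity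
  have hB4c : (B4.card : ℝ) ≤ N / (q * L ^ (A + 2)) := by
    have h4 : (N : ℝ) ^ 3 / (q * L ^ (3 * A + 40)) ≤ (N / (q * L ^ (A + 2))) * (N / (4 * L ^ (A + 4))) ^ 2 := by
      have e1 : (N / (q * L ^ (A + 2))) * (N / (4 * L ^ (A + 4))) ^ 2 = (N : ℝ) ^ 3 / (q * (16 * L ^ (3 * A + 10))) := by
        rw [div_pow, div_mul_div_comm]
        congr 1 <;> ring
      rw [e1]
      apply div_le_div_of_nonneg_left (by positivity) (by positivity)
      apply mul_le_mul_of_nonneg_left _ hq0.le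
      rw [show 3 * A + 40 = 30 + (3 * A + 10) by ring, pow_add L 30]
      apply mul_le_mul_of_nonneg_right _ (by positivity)
      have : L ^ 1 ≤ L ^ 30 := pow_le_pow_right₀ hL1 (by norm_num)
      linarith [pow_one L]
    exact le_of_mul_le_mul_right (hsum.trans h4) (by positivity)
  have h3 : (B1.card : ℝ) + B2.card = Bd.card := by exact_mod_cast hcard
  have h3' : (B3.card : ℝ) + B4.card = B2.card := by exact_mod_cast hcard2
  have h4 : (N : ℝ) / (q * L ^ (A + 1)) = N / (q * L ^ A) / L := by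
    rw [pow_succ, ← mul_assoc, ← div_div]
  have h5 : (N : ℝ) / (q * L ^ (A + 2)) = N / (q * L ^ A) / L / L := by
    rw [pow_succ, pow_succ, ← mul_assoc, ← mul_assoc, ← div_div, ← div_div]
  have h6 : 0 ≤ (N : ℝ) / (q * L ^ A) := by positivity
  have h7 : (N : ℝ) / (q * L ^ A) / L ≤ N / (q * L ^ A) / 64 := div_le_div_of_nonneg_left h6 (by norm_num) hL
  have h8 : (N : ℝ) / (q * L ^ A) / L / L ≤ N / (q * L ^ A) / L := div_le_self (by positivity) hL1
  rw [h4] at hB1c hB3c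
  rw [h5] at hB4c
  linarith

end Pool.Agent.Y883.GJ
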