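import Pool.Agent.Y883.T3.Mod
import Pool.Agent.Helper112.TypeI

set_option autoImplicit false

/-! Statements of project GJ: the binary Goldbach problem in the residue classes modulo `q`,
for EVERY modulus `q ≤ N ^ (1 / 2 - ρ)`. -/

namespace Pool.Agent.Y883.GJ

open Finset
open Pool.Agent.H807R2.Dav (ee)
open Pool.Agent.H373R2.T7 (lamz Vz pz)
open Pool.Agent.Y883.T3 (lsh)

/-- the part of a twisted sum in the residue class `l` modulo `q` -/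
noncomputable def cl (q N : ℕ) (F : ℕ → ℂ) (β : ℝ) (l : ZMod q) : ℂ :=
  ∑ n ∈ (Icc 1 N).filter (fun n : ℕ => (n : ZMod q) = l), F n * ee (n * β)

/-- a twisted character sum -/
noncomputable def cs (q N : ℕ) (F : ℕ → ℂ) (β : ℝ) (χ : DirichletCharacter ℂ q) : ℂ :=
  ∑ n ∈ Icc 1 N, F n * χ (n : ZMod q) * ee (n * β)

/-- the contribution of the characters in `B` to `cl` -/
noncomputable def clB (q N : ℕ) (F : ℕ → ℂ) (β : ℝ) (B : Finset (DirichletCharacter ℂ q))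
    (l : ZMod q) : ℂ :=
  (q.totient : ℂ)⁻¹ * ∑ χ ∈ B, χ⁻¹ l * cs q N F β χ

open Classical in
/-- the vector of the values `χ(n) e(n β)`, `χ ∈ S` -/
noncomputable def ev {q : ℕ} [NeZero q] (S : Finset (DirichletCharacter ℂ q)) (β : ℝ) (n : ℕ) :
    EuclideanSpace ℂ (DirichletCharacter ℂ q) :=
  WithLp.toLp 2 (fun χ => if χ ∈ S then χ (n : ZMod q) * ee (n * β) else 0)

/-- coefficient of the identity of Vaughan -/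
noncomputable def bt (U b : ℕ) : ℝ :=
  ∑ e ∈ b.divisors.filter (fun e => U < e), ((ArithmeticFunction.moebius e : ℤ) : ℝ)

/-- coefficient of the identity of Vaughan -/
noncomputable def lv (U c : ℕ) : ℝ := if U < c then ArithmeticFunction.vonMangoldt c else 0

/-- ORTH: orthogonality and Parseval for the characters modulo `q` -/
def OrthStm : Prop := ∀ (q N : ℕ) [NeZero q] (F : ℕ → ℂ) (β : ℝ) (B : Finset (DirichletCharacter ℂ q)),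
  (∑ l : ZMod q, ‖cl q N F β l - clB q N F β B l‖ ^ 2 =
    (q.totient : ℝ)⁻¹ * ∑ χ ∈ univ.filter (fun χ => χ ∉ B), ‖cs q N F β χ‖ ^ 2 +
      ∑ l ∈ univ.filter (fun l : ZMod q => ¬ IsUnit l), ‖cl q N F β l‖ ^ 2) ∧
  (∑ l : ZMod q, ‖clB q N F β B l‖ ^ 2 ≤ ∑ l : ZMod q, ‖cl q N F β l‖ ^ 2) ∧
  (∑ χ : DirichletCharacter ℂ q, ‖cs q N F β χ‖ ^ 2 =
    q.totient * ∑ l ∈ univ.filter (fun l : ZMod q => IsUnit l), ‖cl q N F β l‖ ^ 2)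

/-- L2: mean values over all characters, respectively all classes -/
def L2Stm : Prop := ∀ (q X : ℕ) [NeZero q] (w : ℕ → ℂ),
  (∑ χ : DirichletCharacter ℂ q, ‖∑ n ∈ Icc 1 X, w n * χ (n : ZMod q)‖ ^ 2 ≤
    ((X : ℝ) + q) * ∑ n ∈ Icc 1 X, ‖w n‖ ^ 2) ∧
  ∀ β : ℝ, ∑ l : ZMod q, ‖cl q X w β l‖ ^ 2 ≤ ((X : ℝ) / q + 1) * ∑ n ∈ Icc 1 X, ‖w n‖ ^ 2

open Classical in
/-- COUNT: few characters have a large sum (fifth power and mean value) -/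
def CountStm : Prop := ∃ c : ℕ, ∀ (q X : ℕ) [NeZero q] (a : ℕ → ℂ) (ℓ T : ℝ), 1 ≤ X →
  1 + Real.log X ≤ ℓ → 0 < T → (∀ m ∈ Icc 1 X, ‖a m‖ ≤ ℓ * (m.divisors.card : ℝ)) →
  ((univ.filter (fun χ : DirichletCharacter ℂ q =>
      T < ‖∑ m ∈ Icc 1 X, a m * χ (m : ZMod q)‖)).card : ℝ) * T ^ 10 ≤
    ((X : ℝ) ^ 5 + q) * X ^ 5 * (5 * ℓ) ^ c

/-- VAU: the identity of Vaughan in a normed space -/
def VauStm : Prop := ∀ (V : Type) [NormedAddCommGroup V] [NormedSpace ℝ V] (E : ℕ → V) (N U : ℕ) (Y : ℕ → ℝ),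
  1 ≤ U → U * U ≤ N → (∀ c ∈ Icc 1 (U * U), ∀ y : ℕ, y ≤ N / c → ‖∑ b ∈ Icc 1 y, E (b * c)‖ ≤ Y c) →
  ‖∑ n ∈ Icc 1 N, (ArithmeticFunction.vonMangoldt n) • E n -
      ∑ b ∈ Icc 1 N, ∑ c ∈ Icc 1 (N / b), (bt U b * lv U c) • E (b * c)‖ ≤
    ∑ n ∈ Icc 1 U, ArithmeticFunction.vonMangoldt n * ‖E n‖ +
      3 * (1 + Real.log N) * ∑ c ∈ Icc 1 (U * U), Y c

/-- TIMAJ: smooth sums, nonprincipal characters -/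
def TiMajStm : Prop := ∀ (q : ℕ) [NeZero q] (S : Finset (DirichletCharacter ℂ q)),
  (1 : DirichletCharacter ℂ q) ∉ S → ∀ (η : ℝ) (c y : ℕ),
  ‖∑ b ∈ Icc 1 y, ev S η (b * c)‖ ≤ q * Real.sqrt q * (1 + 7 * |η| * (c * y))

/-- TIMIN: smooth sums, all characters, minor arcs -/
def TiMinStm : Prop := ∃ K : ℝ, ∀ (q N D r : ℕ) [NeZero q] (h : ℤ) (β : ℝ), 1 ≤ D → D ≤ N → q ≤ N →
  1 ≤ r → r ≤ N → IsCoprime h (r : ℤ) → |q * β - h / r| ≤ 1 / (r : ℝ) ^ 2 →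
  ∃ Y : ℕ → ℝ, (∀ c ∈ Icc 1 D, ∀ y : ℕ, y ≤ N / c →
      ‖∑ b ∈ Icc 1 y, ev (univ : Finset (DirichletCharacter ℂ q)) β (b * c)‖ ≤ Y c) ∧
    ∑ c ∈ Icc 1 D, Y c ≤ K * ((N : ℝ) / r + q * D + q * r) * (1 + Real.log N) ^ 2

/-- BILMIN: bilinear sums, all characters, minor arcs -/
def BilMinStm : Prop := ∃ K : ℝ, ∀ (q N M r : ℕ) [NeZero q] (h : ℤ) (β : ℝ) (a b : ℕ → ℂ), 1 ≤ M → M ≤ N →
  1 ≤ r → IsCoprime h (r : ℤ) → |q * β - h / r| ≤ 1 / (r : ℝ) ^ 2 →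
  ‖∑ m ∈ Ioc M (2 * M), ∑ k ∈ Icc 1 (N / m),
      (a m * b k) • ev (univ : Finset (DirichletCharacter ℂ q)) β (m * k)‖ ^ 2 ≤
    K * (∑ m ∈ Ioc M (2 * M), ‖a m‖ ^ 2) * (∑ k ∈ Icc 1 (N / M), ‖b k‖ ^ 2) *
      (q * (M + (N : ℝ) / (q * r) + (N : ℝ) / (q * M) + r) * (1 + Real.log r))

/-- BILMAJ: bilinear sums, major arcs, all characters but `(log N)^C₃` bad ones -/
def BilMajStm : Prop := ∀ (A C : ℕ) (ρ : ℝ), 0 < ρ → ∃ C₃ N₀ : ℕ, ∀ N : ℕ, N₀ ≤ N →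
  ∀ (q : ℕ) [NeZero q], (q : ℝ) ≤ (N : ℝ) ^ (1 / 2 - ρ) → ∀ a b : ℕ → ℂ,
  (∀ m ∈ Icc 1 N, ‖a m‖ ≤ Real.log N * (m.divisors.card : ℝ)) →
  (∀ m ∈ Icc 1 N, ‖b m‖ ≤ Real.log N * (m.divisors.card : ℝ)) →
  (∀ m, a m ≠ 0 → (N : ℝ) ^ (1 / 10 : ℝ) ≤ 2 * m ∧ m * m ≤ N) →
  ∃ B : Finset (DirichletCharacter ℂ q), (B.card : ℝ) ≤ Real.log N ^ C₃ ∧
    ∀ η : ℝ, |η| ≤ Real.log N ^ C / N → ∀ S : Finset (DirichletCharacter ℂ q), Disjoint S B →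
    ‖∑ m ∈ Icc 1 N, ∑ k ∈ Icc 1 (N / m), (a m * b k) • ev S η (m * k)‖ ^ 2 ≤
      (N : ℝ) ^ 2 / Real.log N ^ A

/-- SMALLC: characters of small conductor -/
def SmallCStm : Prop := ∀ (q N : ℕ) [NeZero q] (F : ℕ → ℂ) (T₁ T₂ : ℝ),
  (∀ α : ℝ, ‖∑ n ∈ Icc 1 N, F n * ee (n * α)‖ ≤ T₁) →
  (∑ n ∈ (Icc 1 N).filter (fun n => ¬ n.Coprime q), ‖F n‖ ≤ T₂) →
  ∀ (χ : DirichletCharacter ℂ q) (η : ℝ), ‖cs q N F η χ‖ ≤ Real.sqrt χ.conductor * T₁ + T₂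

/-- JAC: generalised Jacobi sums -/
def JacStm : Prop := ∀ (q : ℕ) [NeZero q] (χ₁ χ₂ : DirichletCharacter ℂ q) (a : ZMod q),
  ‖∑ l : ZMod q, χ₁ l * χ₂ (a - l)‖ ≤
    q * (1 + Real.log q) * Real.sqrt ((Nat.gcd a.val q : ℝ) / χ₁.conductor)

/-- LIFT: from the modulus `q` to the modulus `r q` -/
def LiftStm : Prop := ∀ (q r N : ℕ) [NeZero q] [NeZero (r * q)] (G F : ℕ → ℂ) (h : ℤ) (β η : ℝ),
  β = h / (r * q : ℕ) + η → 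
  (∀ a : ZMod q, ‖∑ l : ZMod q, cl q N G β l * cl q N F β (a - l)‖ ≤
    ∑ a' ∈ univ.filter (fun a' : ZMod (r * q) => ((a'.val : ℕ) : ZMod q) = a),
      ‖∑ l : ZMod (r * q), cl (r * q) N G η l * cl (r * q) N F η (a' - l)‖) ∧
  ∀ l : ZMod (r * q), ‖cl (r * q) N F η l‖ = ‖cl (r * q) N F β l‖

/-- PARS: Parseval -/
def ParsStm : Prop := ∀ (q N : ℕ) [NeZero q] (G F : ℕ → ℂ), 1 ≤ N →
  (∀ a : ZMod q, ((2 * N + 1 : ℕ) : ℝ) * ∑ n ∈ (Icc 1 (2 * N)).filter (fun n : ℕ => (n : ZMod q) = a),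
      ‖∑ b ∈ Icc 1 N, ∑ c ∈ Icc 1 N, if b + c = n then G b * F c else 0‖ ^ 2 =
    ∑ t ∈ range (2 * N + 1), ‖∑ l : ZMod q, cl q N G ((t : ℝ) / (2 * N + 1 : ℕ)) l *
      cl q N F ((t : ℝ) / (2 * N + 1 : ℕ)) (a - l)‖ ^ 2) ∧
  ∑ t ∈ range (2 * N + 1), ∑ l : ZMod q, ‖cl q N F ((t : ℝ) / (2 * N + 1 : ℕ)) l‖ ^ 2 =
    ((2 * N + 1 : ℕ) : ℝ) * ∑ n ∈ Icc 1 N, ‖F n‖ ^ 2

/-- LSH: the truncated sieve model is of type I -/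
def LshStm : Prop := ∀ (V : Type) [NormedAddCommGroup V] [NormedSpace ℝ V] (E : ℕ → V) (N z r : ℕ)
  (Y : ℕ → ℝ), (∀ d ∈ Icc 1 ((z + 1) ^ r), ‖∑ b ∈ Icc 1 (N / d), E (b * d)‖ ≤ Y d) →
  ‖∑ n ∈ Icc 1 N, (lsh z r n) • E n‖ ≤ (Vz z)⁻¹ * ∑ d ∈ Icc 1 ((z + 1) ^ r), Y d

/-- the properties of the sieve model `lsh z r` which are used -/
structure Par (U N z r : ℕ) : Prop where
  hD : ((((z + 1) ^ r) ^ 100 : ℕ) : ℝ) ≤ N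
  hV : (Vz z)⁻¹ ≤ Real.log N
  hT : ∀ n ∈ Icc 1 N, |ArithmeticFunction.vonMangoldt n - lsh z r n| ≤ 2 * Real.log N * (n.divisors.card : ℝ)
  hS : ∀ α : ℝ, ‖∑ n ∈ Icc 1 N, ((ArithmeticFunction.vonMangoldt n - lsh z r n : ℝ) : ℂ) * ee ((n : ℝ) * α)‖ ≤
      N / Real.log N ^ U
  hC : ∀ q : ℕ, 1 ≤ q → q ≤ N → ∑ n ∈ (Icc 1 N).filter (fun n => ¬ n.Coprime q),
      |ArithmeticFunction.vonMangoldt n - lsh z r n| ≤ N / Real.log N ^ U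
  hL : ∀ q : ℕ, 1 ≤ q → q ≤ N → ∑ n ∈ (Icc 1 N).filter (fun n => ¬ n.Coprime q),
      ArithmeticFunction.vonMangoldt n ≤ N / Real.log N ^ U

/-- MODEL: parameters of the sieve model -/
def ModelStm : Prop := ∀ U : ℕ, ∃ B : ℕ, ∀ E : ℕ, ∃ N₀ : ℕ, ∀ N : ℕ, N₀ ≤ N → ∀ z : ℕ,
  Real.log N ^ B ≤ z → (z : ℝ) ≤ Real.log N ^ E → ∃ r : ℕ, Par U N z r ∧
    ∑ n ∈ Icc 1 N, |lamz z n - lsh z r n| ≤ N / Real.log N ^ U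

/-- NONU: the classes which are not coprime to the modulus -/
def NonUStm : Prop := ∃ c : ℕ, ∀ (q N : ℕ) [NeZero q] (F : ℕ → ℂ) (ℓ T β : ℝ), 1 ≤ N → 1 + Real.log N ≤ ℓ →
  (∀ n ∈ Icc 1 N, ‖F n‖ ≤ ℓ * (n.divisors.card : ℝ)) →
  (∑ n ∈ (Icc 1 N).filter (fun n => ¬ n.Coprime q), ‖F n‖ ≤ T) →
  ∑ l ∈ univ.filter (fun l : ZMod q => ¬ IsUnit l), ‖cl q N F β l‖ ^ 2 ≤
    ((N : ℝ) / q + 1) * Real.sqrt (T * (N * ℓ ^ c))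

/-- the von Mangoldt function with complex values -/
noncomputable def LA (n : ℕ) : ℂ := ((ArithmeticFunction.vonMangoldt n : ℝ) : ℂ)

/-- the sieve model with complex values -/
noncomputable def LS (z r n : ℕ) : ℂ := ((lsh z r n : ℝ) : ℂ)

/-- the difference -/
noncomputable def FF (z r n : ℕ) : ℂ := ((ArithmeticFunction.vonMangoldt n - lsh z r n : ℝ) : ℂ)

/-- MAJL: the von Mangoldt function on the major arcs -/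
def MajLStm : Prop := ∀ (A C : ℕ) (ρ : ℝ), 0 < ρ → ∃ C₃ N₀ : ℕ, ∀ N : ℕ, N₀ ≤ N →
  ∀ (q : ℕ) [NeZero q], (q : ℝ) ≤ (N : ℝ) ^ (1 / 2 - ρ) →
  ∃ B : Finset (DirichletCharacter ℂ q), 1 ∈ B ∧ (B.card : ℝ) ≤ Real.log N ^ C₃ ∧
    ∀ η : ℝ, |η| ≤ Real.log N ^ C / N → ∀ S : Finset (DirichletCharacter ℂ q), Disjoint S B →
      ∑ χ ∈ S, ‖cs q N LA η χ‖ ^ 2 ≤ (N : ℝ) ^ 2 / Real.log N ^ A

/-- MAJH: the sieve model on the major arcs -/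
def MajHStm : Prop := ∀ (A C : ℕ) (ρ : ℝ), 0 < ρ → ∃ N₀ : ℕ, ∀ N : ℕ, N₀ ≤ N →
  ∀ (q : ℕ) [NeZero q], (q : ℝ) ≤ (N : ℝ) ^ (1 / 2 - ρ) → ∀ z r : ℕ,
  ((((z + 1) ^ r) ^ 100 : ℕ) : ℝ) ≤ N → (Vz z)⁻¹ ≤ Real.log N →
  ∀ η : ℝ, |η| ≤ Real.log N ^ C / N → ∀ S : Finset (DirichletCharacter ℂ q), 1 ∉ S →
    ∑ χ ∈ S, ‖cs q N (LS z r) η χ‖ ^ 2 ≤ (N : ℝ) ^ 2 / Real.log N ^ A

/-- MINF: the difference on the minor arcs -/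
def MinFStm : Prop := ∀ (A : ℕ) (ρ : ℝ), 0 < ρ → ∃ C N₀ : ℕ, ∀ N : ℕ, N₀ ≤ N →
  ∀ (q : ℕ) [NeZero q], (q : ℝ) ≤ (N : ℝ) ^ (1 / 2 - ρ) → ∀ z r : ℕ,
  ((((z + 1) ^ r) ^ 100 : ℕ) : ℝ) ≤ N → (Vz z)⁻¹ ≤ Real.log N →
  ∀ (k : ℕ) (h : ℤ) (β : ℝ), Real.log N ^ C ≤ k → (q : ℝ) * k * Real.log N ^ C ≤ N →
    IsCoprime h (k : ℤ) → |q * β - h / k| ≤ 1 / (k : ℝ) ^ 2 →
    ∑ χ : DirichletCharacter ℂ q, ‖cs q N (FF z r) β χ‖ ^ 2 ≤ (N : ℝ) ^ 2 / Real.log N ^ A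

/-- PW: the pointwise estimate on the major arcs -/
def PWStm : Prop := ∀ (A C T : ℕ) (ρ : ℝ), 0 < ρ → ∃ U N₀ : ℕ, ∀ N : ℕ, N₀ ≤ N →
  ∀ (q : ℕ) [NeZero q], (q : ℝ) ≤ (N : ℝ) ^ (1 / 2 - ρ) → ∀ z r : ℕ, Par U N z r →
  ∀ a : ZMod q, (Nat.gcd a.val q : ℝ) ≤ Real.log N ^ T → ∀ η : ℝ, |η| ≤ Real.log N ^ C / N →
    ‖∑ l : ZMod q, cl q N LA η l * cl q N (FF z r) η (a - l)‖ ^ 2 ≤
      (N : ℝ) ^ 2 / (q * Real.log N ^ A) *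
        (∑ l : ZMod q, ‖cl q N LA η l‖ ^ 2 + ∑ l : ZMod q, ‖cl q N (FF z r) η l‖ ^ 2)

/-- CORE: the mean square in a residue class -/
def CoreStm : Prop := ∀ (A T : ℕ) (ρ : ℝ), 0 < ρ → ∃ U N₀ : ℕ, ∀ N : ℕ, N₀ ≤ N →
  ∀ (q : ℕ) [NeZero q], (q : ℝ) ≤ (N : ℝ) ^ (1 / 2 - ρ) → ∀ z r : ℕ, Par U N z r →
  ∀ a : ZMod q, (Nat.gcd a.val q : ℝ) ≤ Real.log N ^ T →
    ∑ n ∈ (Icc 1 (2 * N)).filter (fun n : ℕ => (n : ZMod q) = a),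
      ‖∑ b ∈ Icc 1 N, ∑ c ∈ Icc 1 N, if b + c = n then LA b * FF z r c else 0‖ ^ 2 ≤
        (N : ℝ) ^ 3 / (q * Real.log N ^ A)

end Pool.Agent.Y883.GJ
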