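import Pool.Agent.Y883.GJ.Stm
import Pool.Agent.Y183.GJ.BilMaj
import Pool.Agent.Y185.GJ.SmallC
import Pool.Agent.Y235.GJ.Vau
import Pool.Agent.Y297.GJ.Orth
import Pool.Agent.Y378.GJ.Pw
import Pool.Agent.Y412.GJ.TiMin
import Pool.Agent.Y510.GJ.Minf
import Pool.Agent.Y614.GJ.Core
import Pool.Agent.Y662.GJ.Count
import Pool.Agent.Y662.GJ.Jac
import Pool.Agent.Y689.GJ.MajH
import Pool.Agent.Y708.GJ.Lift
import Pool.Agent.Y776.GJ.MajL
import Pool.Agent.Y812.GJ.L2
import Pool.Agent.Y812.GJ.LshLe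
import Pool.Agent.Y812.GJ.NonU
import Pool.Agent.Y872.GJ.Pars
import Pool.Agent.Y909.GJ.BilMin
import Pool.Agent.Y918.GJ.Model
import Pool.Agent.Y948.GJ.TiMaj

/-!
# Assembly of the joint Fourier expansion (project GJ)

The intermediate statements of `Stm.lean` are proved in the imported files; here they are put together.
-/

namespace Pool.Agent.Y883.GJ

/-- the low frequencies -/
theorem majL_all : MajLStm :=
  Pool.Agent.Y776.GJ.majL Pool.Agent.Y235.GJ.vau Pool.Agent.Y948.GJ.tiMaj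
    (Pool.Agent.Y183.GJ.bilMaj Pool.Agent.Y812.GJ.l2 (Pool.Agent.Y662.GJ.count Pool.Agent.Y812.GJ.l2))

/-- the higher frequencies on the major arcs -/
theorem majH_all : MajHStm :=
  Pool.Agent.Y689.GJ.majH Pool.Agent.Y948.GJ.tiMaj Pool.Agent.Y812.GJ.lsh_le

/-- the minor arcs -/
theorem minF_all : MinFStm :=
  Pool.Agent.Y510.GJ.minF Pool.Agent.Y235.GJ.vau Pool.Agent.Y412.GJ.tiMin Pool.Agent.Y909.GJ.bilMin
    Pool.Agent.Y812.GJ.lsh_le

/-- the pointwise bound on the major arcs -/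
theorem pw_all : PWStm :=
  Pool.Agent.Y378.GJ.pw majL_all majH_all Pool.Agent.Y297.GJ.orth Pool.Agent.Y812.GJ.l2
    Pool.Agent.Y185.GJ.smallC Pool.Agent.Y662.GJ.jac Pool.Agent.Y812.GJ.nonU

/-- the second moment of the error -/
theorem core_all : CoreStm :=
  Pool.Agent.Y614.GJ.Core.core pw_all minF_all Pool.Agent.Y708.GJ.lift Pool.Agent.Y872.GJ.pars
    Pool.Agent.Y297.GJ.orth Pool.Agent.Y812.GJ.l2 Pool.Agent.Y812.GJ.nonU

/-- the main term -/
theorem model_all : ModelStm := Pool.Agent.Y918.GJ.model'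

end Pool.Agent.Y883.GJ
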