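import Pool.Agent.Y883.GJ.Stm2
import Pool.Agent.Y883.GJ.Gold
import Pool.Agent.Y883.T4.Tup
import Pool.Agent.W93.GB3

set_option autoImplicit false

/-! Prime pairs with a difference in a residue class of an arbitrary modulus. -/

namespace Pool.Agent.Y883.GJ

open Finset
open Pool.Agent.H373R2.T7
open Pool.Agent.W93.GB (sh singZ_near one_le_sing)
open Pool.Agent.Y883.T3
open Pool.Agent.Y883.T4 (class_le)

/-- the correlation -/
noncomputable def hc (N z r : ℕ) (k : ℤ) : ℂ :=
  ∑ b ∈ Icc 1 N, ∑ c ∈ Icc 1 N, if (b : ℤ) - c = k then LA b * FF z r c else 0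

lemma hc_near (N z r h : ℕ) (_hN : 1 ≤ N) :
    |∑ b ∈ Icc 1 N, ArithmeticFunction.vonMangoldt b * (lamI ((b : ℤ) - h) - lamzI z ((b : ℤ) - h))| ≤
      ‖hc N z r h‖ + Real.log N * ∑ c ∈ Icc 1 N, |lamz z c - lsh z r c| := by
  classical
  have hlog : 0 ≤ Real.log N := Real.log_natCast_nonneg _
  have h1 : ∀ b ∈ Icc 1 N, ArithmeticFunction.vonMangoldt b * (lamI ((b : ℤ) - h) - lamzI z ((b : ℤ) - h)) =
      ∑ c ∈ Icc 1 N, if (b : ℤ) - c = h then ArithmeticFunction.vonMangoldt b *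
        (ArithmeticFunction.vonMangoldt c - lamz z c) else 0 := by
    intro b hb
    rw [mem_Icc] at hb
    rcases lt_or_ge h b with hbn | hbn
    · obtain ⟨c, hc⟩ : ∃ c, c = b - h := ⟨_, rfl⟩
      rw [sum_eq_single c]
      · rw [if_pos (by omega)]
        have e1 : ((b : ℤ) - h) = (c : ℤ) := by omega
        have e2 : (1 : ℤ) ≤ c := by omega
        rw [e1]
        unfold lamI lamzI
        rw [if_pos e2, if_pos e2, Int.toNat_natCast]
      · intro c' _ hne
        rw [if_neg (by omega)]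
      · intro hcn
        exact absurd (mem_Icc.2 ⟨by omega, by omega⟩) hcn
    · rw [sum_eq_zero]
      · unfold lamI lamzI
        rw [if_neg (by omega), if_neg (by omega)]
        ring
      · intro c hc
        rw [mem_Icc] at hc
        rw [if_neg (by omega)]
  have h2 : ∑ b ∈ Icc 1 N, ArithmeticFunction.vonMangoldt b * (lamI ((b : ℤ) - h) - lamzI z ((b : ℤ) - h)) =
      ∑ b ∈ Icc 1 N, ∑ c ∈ Icc 1 N, (if (b : ℤ) - c = h then ArithmeticFunction.vonMangoldt b *
        (ArithmeticFunction.vonMangoldt c - lsh z r c) else 0) +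
      ∑ b ∈ Icc 1 N, ∑ c ∈ Icc 1 N, (if (b : ℤ) - c = h then ArithmeticFunction.vonMangoldt b *
        (lsh z r c - lamz z c) else 0) := by
    rw [sum_congr rfl h1, ← sum_add_distrib]
    apply sum_congr rfl
    intro b _
    rw [← sum_add_distrib]
    apply sum_congr rfl
    intro c _
    split_ifs
    · ring
    · ring
  have h3 : ((∑ b ∈ Icc 1 N, ∑ c ∈ Icc 1 N, (if (b : ℤ) - c = h then ArithmeticFunction.vonMangoldt b *
        (ArithmeticFunction.vonMangoldt c - lsh z r c) else 0) : ℝ) : ℂ) = hc N z r h := by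
    unfold hc LA FF
    rw [Complex.ofReal_sum]
    apply sum_congr rfl
    intro b _
    rw [Complex.ofReal_sum]
    apply sum_congr rfl
    intro c _
    split_ifs
    · rw [← Complex.ofReal_mul]
    · rw [Complex.ofReal_zero]
  have h4 : |∑ b ∈ Icc 1 N, ∑ c ∈ Icc 1 N, (if (b : ℤ) - c = h then ArithmeticFunction.vonMangoldt b *
        (ArithmeticFunction.vonMangoldt c - lsh z r c) else 0)| = ‖hc N z r h‖ := by
    rw [← h3, Complex.norm_real, Real.norm_eq_abs]
  have h5 : |∑ b ∈ Icc 1 N, ∑ c ∈ Icc 1 N, (if (b : ℤ) - c = h then ArithmeticFunction.vonMangoldt b *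
        (lsh z r c - lamz z c) else 0)| ≤ Real.log N * ∑ c ∈ Icc 1 N, |lamz z c - lsh z r c| := by
    rw [sum_comm]
    refine (abs_sum_le_sum_abs _ _).trans ?_
    rw [mul_sum]
    apply sum_le_sum
    intro c hc
    rw [mem_Icc] at hc
    refine (abs_sum_le_sum_abs _ _).trans ?_
    have h6 : ∀ b ∈ Icc 1 N, |(if (b : ℤ) - c = h then ArithmeticFunction.vonMangoldt b *
        (lsh z r c - lamz z c) else 0)| ≤ if b = h + c then Real.log N * |lamz z c - lsh z r c| else 0 := by
      intro b hb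
      rw [mem_Icc] at hb
      by_cases hbc : (b : ℤ) - c = h
      · rw [if_pos hbc, if_pos (by omega), abs_mul, abs_sub_comm (lsh z r c)]
        apply mul_le_mul_of_nonneg_right _ (abs_nonneg _)
        rw [abs_of_nonneg ArithmeticFunction.vonMangoldt_nonneg]
        refine ArithmeticFunction.vonMangoldt_le_log.trans ?_
        exact Real.log_le_log (by exact_mod_cast hb.1) (by exact_mod_cast hb.2)
      · rw [if_neg hbc, abs_zero]
        split_ifs
        · positivity
        · exact le_rfl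
    refine (sum_le_sum h6).trans ?_
    rw [sum_ite_eq']
    split_ifs
    · exact le_rfl
    · positivity
  rw [h2]
  refine (abs_add_le _ _).trans ?_
  linarith

/-- the weighted number of the pairs of primes `n, n - h` with `n ≤ N` -/
noncomputable def PS (N h : ℕ) : ℝ := ∑ n ∈ Icc 1 N, ArithmeticFunction.vonMangoldt n * lamI ((n : ℤ) - h)

/-- the number of the pairs of primes `n, n - h` with `n ≤ N` -/
def PC (N h : ℕ) : ℕ := ((Icc 1 N).filter (fun n => n.Prime ∧ (n - h).Prime)).card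

/-- the sum over the sieve model -/
noncomputable def MM (z N h : ℕ) : ℝ := ∑ n ∈ Icc 1 N, ArithmeticFunction.vonMangoldt n *
      ∏ i : Fin 1, (if ∀ p ∈ pz z, ¬ (p : ℤ) ∣ (n : ℤ) + sh h i then (Vz z)⁻¹ else 0)

lemma MM_split (z N h : ℕ) (hh : h ≤ N) :
    ∑ n ∈ Icc 1 N, ArithmeticFunction.vonMangoldt n * lamzI z ((n : ℤ) - h) = MM z N h - MM z h h := by
  classical
  have e1 : ∀ m : ℕ → ℝ, ∑ n ∈ Icc 1 N, m n = ∑ n ∈ Icc 1 h, m n + ∑ n ∈ Ioc h N, m n := by
    intro m
    have hd : Icc 1 N = Icc 1 h ∪ Ioc h N := by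
      ext n
      simp only [mem_Icc, mem_union, mem_Ioc]
      omega
    rw [hd, sum_union]
    rw [disjoint_left]
    intro n hn hn'
    rw [mem_Icc] at hn
    rw [mem_Ioc] at hn'
    omega
  unfold MM
  rw [e1, e1 (fun n => ArithmeticFunction.vonMangoldt n *
      ∏ i : Fin 1, (if ∀ p ∈ pz z, ¬ (p : ℤ) ∣ (n : ℤ) + sh h i then (Vz z)⁻¹ else 0)), add_sub_cancel_left]
  have e2 : ∑ n ∈ Icc 1 h, ArithmeticFunction.vonMangoldt n * lamzI z ((n : ℤ) - h) = 0 := by
    apply sum_eq_zero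
    intro n hn
    rw [mem_Icc] at hn
    unfold lamzI
    rw [if_neg (by omega), mul_zero]
  rw [e2, zero_add]
  apply sum_congr rfl
  intro n hn
  rw [mem_Ioc] at hn
  congr 1
  rw [Fin.prod_univ_one]
  unfold lamzI lamz sh
  rw [if_pos (by omega)]
  obtain ⟨m, hm⟩ : ∃ m, m = n - h := ⟨_, rfl⟩
  have e3 : (n : ℤ) - h = (m : ℤ) := by omega
  have e4 : (n : ℤ) + -(h : ℤ) = (m : ℤ) := by omega
  rw [e3, e4, Int.toNat_natCast]
  simp only [Int.natCast_dvd_natCast]

/-- the properties of the difference `h` -/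
def PairGood (A N h : ℕ) : Prop :=
  (∃ S : ℝ, Filter.Tendsto (fun z => singZ (sh h) z) Filter.atTop (nhds S) ∧
    |PS N h - S * ((N : ℝ) - h)| ≤ N / Real.log N ^ A ∧
    (S * ((N : ℝ) - h) - N / Real.log N ^ A) / Real.log N ^ 2 ≤ PC N h) ∧
  (2 ∣ h → 1 ≤ PC N h)

/-- the prime powers are negligible -/
lemma PS_le (N h : ℕ) (hN : 1 ≤ N) (hh1 : 1 ≤ h) :
    PS N h ≤ Real.log N ^ 2 * PC N h + 4 * √(N : ℝ) * Real.log N ^ 2 := by
  classical
  obtain ⟨L, hL⟩ : ∃ L, L = Real.log (N : ℝ) := ⟨_, rfl⟩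
  have hL0 : 0 ≤ L := by rw [hL]; exact Real.log_natCast_nonneg _
  have hNr : (1 : ℝ) ≤ N := by exact_mod_cast hN
  -- the sum over the proper prime powers
  have hpp : ∑ n ∈ (Icc 1 N).filter (fun n => ¬ n.Prime), ArithmeticFunction.vonMangoldt n ≤ 2 * √(N : ℝ) * L := by
    have h1 := Chebyshev.psi_sub_theta_le hNr
    rw [Chebyshev.psi_sub_theta_eq_sum_not_prime, Nat.floor_natCast, ← hL] at h1
    have e : Ioc 0 N = Icc 1 N := by
      ext n
      simp only [mem_Ioc, mem_Icc]
      omega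
    rw [e] at h1
    exact h1
  have hle : ∀ n ∈ Icc 1 N, ArithmeticFunction.vonMangoldt n ≤ L := by
    intro n hn
    rw [mem_Icc] at hn
    rw [hL]
    exact ArithmeticFunction.vonMangoldt_le_log.trans
      (Real.log_le_log (by exact_mod_cast hn.1) (by exact_mod_cast hn.2))
  have hI : ∀ n ∈ Icc 1 N, lamI ((n : ℤ) - h) = if h < n then ArithmeticFunction.vonMangoldt (n - h) else 0 := by
    intro n hn
    unfold lamI
    by_cases hc : h < n
    · rw [if_pos hc, if_pos (by omega)]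
      congr 1
      omega
    · rw [if_neg hc, if_neg (by omega)]
  have hIL : ∀ n ∈ Icc 1 N, lamI ((n : ℤ) - h) ≤ L := by
    intro n hn
    rw [hI n hn]
    split_ifs with hc
    · apply hle
      rw [mem_Icc] at hn ⊢
      omega
    · exact hL0
  have hI0 : ∀ n : ℕ, 0 ≤ lamI ((n : ℤ) - h) := fun n => lamI_nonneg _
  have hpt : ∀ n ∈ Icc 1 N, ArithmeticFunction.vonMangoldt n * lamI ((n : ℤ) - h) ≤
      (if n.Prime ∧ (n - h).Prime then L ^ 2 else 0) +
        (L * (if ¬ n.Prime then ArithmeticFunction.vonMangoldt n else 0) +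
          L * (if ¬ (n - h).Prime then lamI ((n : ℤ) - h) else 0)) := by
    intro n hn
    have a1 := hle n hn
    have a2 := hIL n hn
    have a3 := hI0 n
    have a4 : 0 ≤ ArithmeticFunction.vonMangoldt n := ArithmeticFunction.vonMangoldt_nonneg
    by_cases c1 : n.Prime
    · by_cases c2 : (n - h).Prime
      · rw [if_pos ⟨c1, c2⟩, if_neg (not_not.2 c1), if_neg (not_not.2 c2)]
        nlinarith
      · rw [if_neg (fun h => c2 h.2), if_neg (not_not.2 c1), if_pos c2]
        nlinarith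
    · rw [if_neg (fun h' => c1 h'.1), if_pos c1]
      have : 0 ≤ L * (if ¬ (n - h).Prime then lamI ((n : ℤ) - h) else 0) := by
        apply mul_nonneg hL0
        split_ifs
        · exact le_rfl
        · exact a3
      nlinarith
  unfold PS
  refine (sum_le_sum hpt).trans ?_
  rw [sum_add_distrib, sum_add_distrib, ← mul_sum, ← mul_sum]
  have b1 : ∑ n ∈ Icc 1 N, (if n.Prime ∧ (n - h).Prime then L ^ 2 else 0) = L ^ 2 * PC N h := by
    rw [← sum_filter, sum_const, nsmul_eq_mul, mul_comm]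
    rfl
  have b2 : ∑ n ∈ Icc 1 N, (if ¬ n.Prime then ArithmeticFunction.vonMangoldt n else 0) ≤ 2 * √(N : ℝ) * L := by
    rw [← sum_filter]
    exact hpp
  have b3 : ∑ n ∈ Icc 1 N, (if ¬ (n - h).Prime then lamI ((n : ℤ) - h) else 0) ≤ 2 * √(N : ℝ) * L := by
    refine le_trans ?_ hpp
    have c1 : ∑ n ∈ Icc 1 N, (if ¬ (n - h).Prime then lamI ((n : ℤ) - h) else 0) =
        ∑ n ∈ (Icc 1 N).filter (fun n => h < n ∧ ¬ (n - h).Prime), ArithmeticFunction.vonMangoldt (n - h) := by
      rw [sum_filter]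
      apply sum_congr rfl
      intro n hn
      rw [hI n hn]
      by_cases d1 : h < n
      · by_cases d2 : (n - h).Prime
        · rw [if_neg (not_not.2 d2), if_neg (fun h' : h < n ∧ ¬ (n - h).Prime => h'.2 d2)]
        · rw [if_pos d2, if_pos d1, if_pos ⟨d1, d2⟩]
      · rw [if_neg d1, ite_self, if_neg (fun h' : h < n ∧ ¬ (n - h).Prime => d1 h'.1)]
    rw [c1]
    have c2 : ∑ n ∈ (Icc 1 N).filter (fun n => h < n ∧ ¬ (n - h).Prime), ArithmeticFunction.vonMangoldt (n - h) =
        ∑ m ∈ ((Icc 1 N).filter (fun n => h < n ∧ ¬ (n - h).Prime)).image (fun n => n - h),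
          ArithmeticFunction.vonMangoldt m := by
      rw [sum_image]
      intro x hx y hy hxy
      rw [mem_coe, mem_filter] at hx hy
      simp only at hxy
      omega
    rw [c2]
    apply sum_le_sum_of_subset_of_nonneg
    · intro m hm
      rw [mem_image] at hm
      obtain ⟨n, hn, rfl⟩ := hm
      rw [mem_filter, mem_Icc] at hn ⊢
      exact ⟨⟨by omega, by omega⟩, hn.2.2⟩
    · intro m _ _
      exact ArithmeticFunction.vonMangoldt_nonneg
  rw [b1, ← hL]
  have b4 := mul_le_mul_of_nonneg_left b2 hL0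
  have b5 := mul_le_mul_of_nonneg_left b3 hL0
  have e : L * (2 * √(N : ℝ) * L) + L * (2 * √(N : ℝ) * L) = 4 * √(N : ℝ) * L ^ 2 := by ring
  linarith

/-- the deterministic part: the difference `h` is good if the sieve model is a good approximation -/
theorem pair_det (A E : ℕ) (hE : A + 8 ≤ E) : ∃ N₀ : ℕ, ∀ N : ℕ, N₀ ≤ N →
    ∀ z : ℕ, Real.log N ^ E ≤ z → (z : ℝ) ≤ Real.log N ^ (E + 1) → ∀ h : ℕ,
    (N : ℝ) / Real.log N ^ (A + 1) ≤ h → (h : ℝ) ≤ N →
    |∑ n ∈ Icc 1 N, ArithmeticFunction.vonMangoldt n * (lamI ((n : ℤ) - h) - lamzI z ((n : ℤ) - h))| ≤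
      N / (2 * Real.log N ^ A) →
    ∃ S : ℝ, Filter.Tendsto (fun z => singZ (sh h) z) Filter.atTop (nhds S) ∧ (2 ∣ h → 1 / 2 ≤ S) ∧
      |PS N h - S * ((N : ℝ) - h)| ≤ N / Real.log N ^ A := by
  classical
  obtain ⟨n2, h2⟩ := tuple_main 1 (E + 2) (A + 2) le_rfl
  obtain ⟨n3, h3⟩ := Vz_inv_small (E + 1)
  obtain ⟨n4, h4⟩ := singZ_near (1 / 4) (by norm_num)
  obtain ⟨n5, h5⟩ := ev_L' (16 + 2 ^ (E + 4) + 2 ^ (A + 10))
  obtain ⟨n6, h6⟩ := ev_log_rpow (A + 1) 1 (1 / 2) (by norm_num)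
  refine ⟨(n2 + n3 + n4 + n5 + n6 + 5) ^ 2, fun N hN z hz1 hz2 h hh1 hh2 hmain => ?_⟩
  obtain ⟨K, hK⟩ : ∃ K, K = n2 + n3 + n4 + n5 + n6 + 5 := ⟨_, rfl⟩
  rw [← hK] at hN
  have hKN : K ≤ N := le_trans (Nat.le_self_pow (by norm_num) K) hN
  have b2 := h2 N (by omega)
  have b2h := h2 h
  have b3 := h3 N (by omega)
  have hL := h5 N (by omega)
  have b6 := h6 N (by omega)
  have hN0 : (0 : ℝ) < N := by exact_mod_cast (by omega : 0 < N)
  have hN1r : (1 : ℝ) ≤ N := by exact_mod_cast (by omega : 1 ≤ N)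
  have hps := PS N h
  obtain ⟨L, hLd⟩ : ∃ L, L = Real.log (N : ℝ) := ⟨_, rfl⟩
  rw [← hLd] at b2 b3 hL b6 hz1 hz2 hh1 hmain ⊢
  have p1 : (0 : ℝ) < 2 ^ (E + 4) := by positivity
  have p2 : (0 : ℝ) < 2 ^ (A + 10) := by positivity
  have hL16 : 16 ≤ L := by linarith
  have hLE : 2 ^ (E + 4) ≤ L := by linarith
  have hLA : 2 ^ (A + 10) ≤ L := by linarith
  have hL1024 : 1024 ≤ L := by
    refine le_trans ?_ hLA
    calc (1024 : ℝ) = 2 ^ 10 := by norm_num
      _ ≤ 2 ^ (A + 10) := pow_le_pow_right₀ (by norm_num) (by omega)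
  have hL1 : 1 ≤ L := by linarith
  have hL0 : 0 < L := by linarith
  have hz0 : (0 : ℝ) < z := lt_of_lt_of_le (by positivity) hz1
  have hzn : 1 ≤ z := by exact_mod_cast hz0
  have hV := b3 z hzn hz2
  -- the size of `h`
  have hhsq : (N : ℝ) ^ (1 / 2 : ℝ) ≤ h := by
    refine le_trans ?_ hh1
    rw [le_div_iff₀ (by positivity)]
    rw [one_mul] at b6
    calc (N : ℝ) ^ (1 / 2 : ℝ) * L ^ (A + 1) ≤ (N : ℝ) ^ (1 / 2 : ℝ) * (N : ℝ) ^ (1 / 2 : ℝ) :=
          mul_le_mul_of_nonneg_left b6 (by positivity)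
      _ = N := by rw [← Real.rpow_add hN0]; norm_num
  have hh0 : (0 : ℝ) < h := lt_of_lt_of_le (by positivity) hhsq
  have hhn : 1 ≤ h := by exact_mod_cast hh0
  have hhN : h ≤ N := by exact_mod_cast hh2
  have hKh : K ≤ h := by
    have e1 : (K : ℝ) ≤ (N : ℝ) ^ (1 / 2 : ℝ) := by
      rw [← Real.sqrt_eq_rpow]
      apply Real.le_sqrt_of_sq_le
      exact_mod_cast hN
    exact_mod_cast e1.trans hhsq
  have hlogh : L / 2 ≤ Real.log h := by
    have e1 := Real.log_le_log (by positivity) hhsq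
    rw [Real.log_rpow hN0, ← hLd] at e1
    linarith
  have hlogh2 : Real.log h ≤ L := by
    rw [hLd]
    exact Real.log_le_log hh0 hh2
  have hlh0 : 0 < Real.log h := by linarith
  have ha1 : ∀ i, sh h i ≠ 0 := by
    intro i
    unfold sh
    omega
  have hab : ∀ i j : Fin 1, i ≠ j → sh h i ≠ sh h j := by
    intro i j hij
    exact absurd (Subsingleton.elim i j) hij
  obtain ⟨S, hS, hSb⟩ := sing_limit (sh h) ha1 hab
  -- the constant
  have hbad := card_badP (sh h) N (fun i => by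
    unfold sh
    rw [Int.natAbs_neg, Int.natAbs_natCast]
    exact hhN) (fun i j => by
    have : i = j := Subsingleton.elim i j
    rw [this, sub_self, Int.natAbs_zero]
    omega)
  have hlogY : (Nat.log 2 N : ℝ) ≤ 2 * L := by
    refine (natlog_le N (by omega)).trans ?_
    rw [← hLd]
  have hKc : Kc (sh h) ≤ L ^ 2 := by
    unfold Kc
    have h6 : ((badP (sh h)).card : ℝ) ≤ 2 * (2 * L) := by
      have h7 : ((badP (sh h)).card : ℝ) ≤ 2 * (Nat.log 2 N : ℝ) := by
        have : (badP (sh h)).card ≤ (1 + 1 * 1) * Nat.log 2 N := hbad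
        exact_mod_cast (show (badP (sh h)).card ≤ 2 * Nat.log 2 N by omega)
      linarith
    push_cast
    have h8 : 1024 * L ≤ L ^ 2 := by nlinarith
    linarith
  have hL2z : L ^ 2 ≤ z := (pow_le_pow_right₀ hL1 (by omega)).trans hz1
  have h3k : 3 * (1 + 1) ≤ z := by
    have h6 : (6 : ℝ) ≤ z := by nlinarith
    exact_mod_cast h6
  have hdiff := hSb z h3k (hKc.trans hL2z)
  have hsz := singZ_le (sh h) z L hV
  rw [pow_one] at hsz
  have hs0 := singZ_nonneg (sh h) z
  have hKc0 : 0 ≤ Kc (sh h) := by unfold Kc; positivity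
  have hrat : Kc (sh h) / z ≤ 1 / L ^ (A + 6) := by
    rw [div_le_div_iff₀ hz0 (by positivity), one_mul]
    calc Kc (sh h) * L ^ (A + 6) ≤ L ^ 2 * L ^ (A + 6) := mul_le_mul_of_nonneg_right hKc (by positivity)
      _ = L ^ (A + 8) := by rw [← pow_add]; congr 1; omega
      _ ≤ L ^ E := pow_le_pow_right₀ hL1 hE
      _ ≤ z := hz1
  have hrat0 : 0 ≤ Kc (sh h) / z := by positivity
  have hLA6 : (1 : ℝ) / L ^ (A + 6) ≤ 1 / 16 := by
    apply div_le_div_of_nonneg_left (by norm_num) (by norm_num)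
    calc (16 : ℝ) ≤ L := hL16
      _ ≤ L ^ (A + 6) := le_self_pow₀ hL1 (by omega)
  refine ⟨S, hS, fun h2h => ?_, ?_⟩
  · have e1 := h4 h (by omega) h2h z (by
      calc Real.log h ^ 2 ≤ L ^ 2 := pow_le_pow_left₀ hlh0.le hlogh2 2
        _ ≤ z := hL2z)
    have e2 := one_le_sing h
    have e3 := (abs_le.1 e1).1
    have e4 := (abs_le.1 hdiff).1
    have e5 : singZ (sh h) z * (Kc (sh h) / z) ≤ singZ (sh h) z * (1 / 16) :=
      mul_le_mul_of_nonneg_left (hrat.trans hLA6) hs0
    linarith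
  · -- the main term
    have e3 : (z : ℝ) ≤ L ^ (E + 2) := hz2.trans (pow_le_pow_right₀ hL1 (by omega))
    have c1 : |MM z N h - singZ (sh h) z * N| ≤ N / L ^ (A + 2) := b2 z hzn e3 (sh h)
    have e4 : (z : ℝ) ≤ Real.log h ^ (E + 2) := by
      refine hz2.trans ?_
      calc L ^ (E + 1) ≤ (2 * Real.log h) ^ (E + 1) := pow_le_pow_left₀ hL0.le (by linarith) _
        _ = 2 ^ (E + 1) * Real.log h ^ (E + 1) := by rw [mul_pow]
        _ ≤ Real.log h * Real.log h ^ (E + 1) := by
            apply mul_le_mul_of_nonneg_right _ (by positivity)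
            have : (2 : ℝ) ^ (E + 4) = 2 ^ (E + 1) * 8 := by rw [show E + 4 = (E + 1) + 3 by ring, pow_add]; norm_num
            have h0 : (0 : ℝ) < 2 ^ (E + 1) := by positivity
            linarith
        _ = Real.log h ^ (E + 2) := by ring
    have c2 : |MM z h h - singZ (sh h) z * h| ≤ h / Real.log h ^ (A + 2) := b2h (by omega) z hzn e4 (sh h)
    have c2' : |MM z h h - singZ (sh h) z * h| ≤ N / (8 * L ^ A) := by
      refine c2.trans ?_
      have e5 : L ^ (A + 2) ≤ 2 ^ (A + 2) * Real.log h ^ (A + 2) := by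
        rw [← mul_pow]
        exact pow_le_pow_left₀ hL0.le (by linarith) _
      have e6 : 8 * L ^ A ≤ Real.log h ^ (A + 2) := by
        have e7 : 8 * L ^ A * 2 ^ (A + 2) ≤ L ^ (A + 2) := by
          have e8 : (2 : ℝ) ^ (A + 10) = 8 * 2 ^ (A + 2) * 32 := by
            rw [show A + 10 = (A + 2) + 8 by ring, pow_add]; norm_num; ring
          have e9 : (0 : ℝ) < 2 ^ (A + 2) := by positivity
          calc 8 * L ^ A * 2 ^ (A + 2) = L ^ A * (8 * 2 ^ (A + 2)) := by ring
            _ ≤ L ^ A * L := mul_le_mul_of_nonneg_left (by linarith) (by positivity)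
            _ ≤ L ^ A * (L * L) := by
                apply mul_le_mul_of_nonneg_left _ (by positivity)
                nlinarith
            _ = L ^ (A + 2) := by ring
        have e9 : (0 : ℝ) < 2 ^ (A + 2) := by positivity
        have e10 : 2 ^ (A + 2) * (8 * L ^ A) ≤ 2 ^ (A + 2) * Real.log h ^ (A + 2) := by linarith
        exact le_of_mul_le_mul_left e10 e9
      calc (h : ℝ) / Real.log h ^ (A + 2) ≤ N / Real.log h ^ (A + 2) :=
            div_le_div_of_nonneg_right hh2 (by positivity)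
        _ ≤ N / (8 * L ^ A) := div_le_div_of_nonneg_left hN0.le (by positivity) e6
    have c1' : |MM z N h - singZ (sh h) z * N| ≤ N / (8 * L ^ A) := by
      refine c1.trans (div_le_div_of_nonneg_left hN0.le (by positivity) ?_)
      calc 8 * L ^ A ≤ (L * L) * L ^ A := mul_le_mul_of_nonneg_right (by nlinarith) (by positivity)
        _ = L ^ (A + 2) := by ring
    have c3 : |(S - singZ (sh h) z) * ((N : ℝ) - h)| ≤ N / (8 * L ^ A) := by
      rw [abs_mul, abs_of_nonneg (show 0 ≤ (N : ℝ) - h by linarith)]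
      calc |S - singZ (sh h) z| * ((N : ℝ) - h) ≤ (L * (1 / L ^ (A + 6))) * N := by
            apply mul_le_mul _ (by linarith) (by linarith) (by positivity)
            refine hdiff.trans ?_
            exact mul_le_mul hsz hrat hrat0 hL0.le
        _ = N * (L / L ^ (A + 6)) := by ring
        _ ≤ N * (1 / (8 * L ^ A)) := by
            apply mul_le_mul_of_nonneg_left _ hN0.le
            rw [div_le_div_iff₀ (by positivity) (by positivity), one_mul]
            calc L * (8 * L ^ A) = L * 8 * L ^ A := by ring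
              _ ≤ L ^ 6 * L ^ A := by
                  apply mul_le_mul_of_nonneg_right _ (by positivity)
                  have e1 : L ^ 1 ≤ L ^ 5 := pow_le_pow_right₀ hL1 (by norm_num)
                  have e2 : (L : ℝ) ^ 6 = L * L ^ 5 := by ring
                  rw [e2]
                  apply mul_le_mul_of_nonneg_left _ hL0.le
                  linarith [pow_one L]
              _ = L ^ (A + 6) := by ring
        _ = N / (8 * L ^ A) := by ring
    have hsplit := MM_split z N h hhN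
    have e2 : ∑ n ∈ Icc 1 N, ArithmeticFunction.vonMangoldt n * (lamI ((n : ℤ) - h) - lamzI z ((n : ℤ) - h)) =
        PS N h - (MM z N h - MM z h h) := by
      rw [← hsplit]
      unfold PS
      rw [← sum_sub_distrib]
      apply sum_congr rfl
      intro n _
      rw [mul_sub]
    rw [e2] at hmain
    have e5 : PS N h - S * ((N : ℝ) - h) = (PS N h - (MM z N h - MM z h h)) + (MM z N h - singZ (sh h) z * N) -
        (MM z h h - singZ (sh h) z * h) - (S - singZ (sh h) z) * ((N : ℝ) - h) := by ring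
    rw [e5]
    have q1 := abs_sub ((PS N h - (MM z N h - MM z h h)) + (MM z N h - singZ (sh h) z * N) -
        (MM z h h - singZ (sh h) z * h)) ((S - singZ (sh h) z) * ((N : ℝ) - h))
    have q2 := abs_sub ((PS N h - (MM z N h - MM z h h)) + (MM z N h - singZ (sh h) z * N))
        (MM z h h - singZ (sh h) z * h)
    have q3 := abs_add_le (PS N h - (MM z N h - MM z h h)) (MM z N h - singZ (sh h) z * N)
    have r1 : (N : ℝ) / (2 * L ^ A) = N / L ^ A / 2 := by rw [div_div, mul_comm (2 : ℝ)]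
    have r2 : (N : ℝ) / (8 * L ^ A) = N / L ^ A / 8 := by rw [div_div, mul_comm (8 : ℝ)]
    have r3 : 0 ≤ (N : ℝ) / L ^ A := by positivity
    rw [r1] at hmain
    rw [r2] at c1' c2' c3
    linarith

end Pool.Agent.Y883.GJ
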