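import Pool.Agent.Y883.GJ.Stm4
import Pool.Agent.Y883.T6.Solve6

set_option autoImplicit false

/-! The ternary equation: existence of prime solutions. -/

namespace Pool.Agent.Y883.GJ

open Finset
open Pool.Agent.H373R2.T7
open Pool.Agent.Y883.T3 (ev_log_rpow)
open Pool.Agent.Y883.T5
open Pool.Agent.Y883.T6

lemma Par7.par6 {ρ : ℝ} (hρ : 0 < ρ) {N T : ℕ} {c1 c2 c3 d : ℤ} {P1 P2 P3 : ℕ} (h : Par7 ρ N T c1 c2 c3 d P1 P2 P3) :
    Par6 (1 / 8) N 0 c1 c2 c3 d P1 P2 P3 := by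
  have ha1 : 1 ≤ c1.natAbs := Int.natAbs_pos.2 h.n1
  have ha2 : 1 ≤ c2.natAbs := Int.natAbs_pos.2 h.n2
  have ha3 : 1 ≤ c3.natAbs := Int.natAbs_pos.2 h.n3
  have key : ∀ a P m : ℕ, 1 ≤ a → a * P ≤ N → N < 2 * (a * P) → (m : ℝ) ≤ (P : ℝ) ^ (1 / 2 - ρ) →
      (m : ℝ) ≤ (N : ℝ) ^ (1 - 2 * (1 / 8 : ℝ)) := by
    intro a P m ha hu hv hm
    have hP1 : 1 ≤ P := by
      by_contra hc
      have : P = 0 := by omega
      subst this
      simp at hv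
    have hPN : P ≤ N := (Nat.le_mul_of_pos_left _ ha).trans hu
    have hP1r : (1 : ℝ) ≤ P := by exact_mod_cast hP1
    have hPNr : (P : ℝ) ≤ N := by exact_mod_cast hPN
    calc (m : ℝ) ≤ (P : ℝ) ^ (1 / 2 - ρ) := hm
      _ ≤ (P : ℝ) ^ (1 - 2 * (1 / 8 : ℝ)) := Real.rpow_le_rpow_of_exponent_le hP1r (by linarith)
      _ ≤ (N : ℝ) ^ (1 - 2 * (1 / 8 : ℝ)) := Real.rpow_le_rpow (by linarith) hPNr (by norm_num)
  have gk : ∀ x y : ℤ, IsCoprime x y → ((Nat.gcd x.natAbs y.natAbs : ℕ) : ℝ) ≤ Real.log N ^ 0 := by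
    intro x y hxy
    have : Nat.gcd x.natAbs y.natAbs = 1 := by
      have := Int.isCoprime_iff_gcd_eq_one.1 hxy
      exact this
    rw [this, pow_zero]
    norm_num
  exact ⟨h.n1, h.n2, h.n3, h.u1, h.u2, h.u3, h.v1, h.v2, h.v3, h.hd, key _ _ _ ha3 h.u3 h.v3 h.q3,
    key _ _ _ ha2 h.u2 h.v2 h.q2, key _ _ _ ha1 h.u1 h.v1 h.q1, gk _ _ h.g12, gk _ _ h.g13, gk _ _ h.g23⟩

theorem solve7 (hE : Err7Stm) (T' : ℕ) (ρ : ℝ) (hρ : 0 < ρ) :
    ∃ N₀ : ℕ, ∀ N : ℕ, N₀ ≤ N → ∀ {c1 c2 c3 d : ℤ} {P1 P2 P3 : ℕ},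
    Par7 ρ N T' c1 c2 c3 d P1 P2 P3 → 0 < c1 → 0 < c2 → c3 < 0 → Adm c1 c2 (-c3) d →
    ∃ x y z : ℕ, x.Prime ∧ y.Prime ∧ z.Prime ∧ c1 * x + c2 * y + c3 * z = d ∧ x ≤ P1 ∧ y ≤ P2 ∧ z ≤ P3 := by
  classical
  obtain ⟨σ, hσd⟩ : ∃ σ : ℝ, σ = 1 / 8 := ⟨_, rfl⟩
  have hσ : 0 < σ := by rw [hσd]; norm_num
  obtain ⟨T, hT⟩ : ∃ T : ℕ, T = 0 := ⟨_, rfl⟩
  obtain ⟨B, hB, N₂, h2⟩ := hE (6 * T + 10) T' 6 ρ hρ
  obtain ⟨N₁, h1⟩ := scale_size σ hσ
  obtain ⟨N₃, h3⟩ := err_prime T σ hσ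
  obtain ⟨N₄, h4⟩ := low T (B + 1) σ hσ
  obtain ⟨N₅, h5⟩ := Vz_inv_small (B + 1)
  obtain ⟨C₀, hC₀⟩ := exists_nat_ge (1 / σ)
  have hC0 : (0 : ℝ) < C₀ := lt_of_lt_of_le (by positivity) hC₀
  have hCσ : 1 / (C₀ : ℝ) ≤ σ := by
    rw [div_le_iff₀ hC0]
    rw [div_le_iff₀ hσ] at hC₀
    linarith
  obtain ⟨N₆, h6⟩ := ev_L' (C₀ ^ B + 25 * C₀ + 100)
  obtain ⟨N₇, h7⟩ := tendsto_pow_log (N₅ + 2 : ℝ) σ hσ
  refine ⟨N₁ + N₂ + N₃ + N₄ + N₆ + N₇ + 2, fun N hN c1 c2 c3 d P1 P2 P3 hp7 hc1 hc2 hc3 hadm => ?_⟩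
  have hp : Par6 σ N T c1 c2 c3 d P1 P2 P3 := by rw [hσd, hT]; exact hp7.par6 hρ
  obtain ⟨b11, b12, b13, b14, b15⟩ := h1 N (by omega) hp
  obtain ⟨b21, b22, b23, b24, b25⟩ := h1 N (by omega) hp.swap
  obtain ⟨b31, b32, b33, b34, b35⟩ := h1 N (by omega) hp.rot.rot
  have hL := h6 N (by omega)
  have c7 := h7 N (by omega)
  have hN1 : 1 ≤ N := by omega
  have hN0 : (0 : ℝ) < N := by exact_mod_cast hN1
  obtain ⟨L, hLd⟩ : ∃ L, L = Real.log (N : ℝ) := ⟨_, rfl⟩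
  rw [← hLd] at hL b14 b15 b24 b25 b34 b35
  have hB4 : (0 : ℝ) < C₀ ^ B := by positivity
  have hL100 : 100 ≤ L := by linarith
  have hL0 : 0 < L := by linarith
  have hL1 : 1 ≤ L := by linarith
  -- the parameters of the models
  have hz : ∀ P : ℕ, (N : ℝ) ^ σ ≤ P → σ * L ≤ Real.log P → Real.log P ≤ L →
      L ^ 5 ≤ (zP B P : ℝ) ∧ (zP B P : ℝ) ≤ L ^ (B + 1) ∧ (Vz (zP B P))⁻¹ ≤ L := by
    intro P hP hl1' hl2
    have hl1 : L / C₀ ≤ Real.log P := by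
      refine le_trans ?_ hl1'
      rw [div_eq_mul_one_div, mul_comm]
      exact mul_le_mul_of_nonneg_right hCσ hL0.le
    have hlP : 25 ≤ Real.log P := by
      refine le_trans ?_ hl1
      rw [le_div_iff₀ hC0]
      linarith
    have hlP0 : 0 < Real.log P := by linarith
    have e1 : Real.log P ^ B ≤ (zP B P : ℝ) := Nat.le_ceil _
    have e2 : (zP B P : ℝ) < Real.log P ^ B + 1 := Nat.ceil_lt_add_one (by positivity)
    have e3 : 1 ≤ Real.log P ^ B := one_le_pow₀ (by linarith)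
    have e4 : (zP B P : ℝ) ≤ Real.log P ^ (B + 1) := by
      calc (zP B P : ℝ) ≤ Real.log P ^ B + 1 := e2.le
        _ ≤ 2 * Real.log P ^ B := by linarith
        _ ≤ Real.log P * Real.log P ^ B := mul_le_mul_of_nonneg_right (by linarith) (by positivity)
        _ = Real.log P ^ (B + 1) := by ring
    refine ⟨?_, ?_, ?_⟩
    · refine le_trans ?_ e1
      calc L ^ 5 ≤ L ^ (B - 1) := pow_le_pow_right₀ hL1 (by omega)
        _ ≤ (L / C₀) ^ B := by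
            rw [div_pow, le_div_iff₀ hB4]
            calc L ^ (B - 1) * C₀ ^ B ≤ L ^ (B - 1) * L := mul_le_mul_of_nonneg_left (by linarith) (by positivity)
              _ = L ^ B := by rw [← pow_succ]; congr 1; omega
        _ ≤ Real.log P ^ B := pow_le_pow_left₀ (by positivity) hl1 _
    · exact e4.trans (pow_le_pow_left₀ hlP0.le hl2 _)
    · have hN5 : N₅ ≤ P := by
        have : (N₅ : ℝ) ≤ P := by linarith
        exact_mod_cast this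
      have hz1 : 1 ≤ zP B P := by
        have : (1 : ℝ) ≤ zP B P := e3.trans e1
        exact_mod_cast this
      exact (h5 P hN5 (zP B P) hz1 e4).trans hl2
  obtain ⟨z11, z12, z13⟩ := hz P1 b11 b14 b15
  obtain ⟨z21, z22, z23⟩ := hz P2 b21 b24 b25
  obtain ⟨z31, z32, z33⟩ := hz P3 b31 b34 b35
  obtain ⟨z, hzd⟩ : ∃ z, z = max (zP B P1) (max (zP B P2) (zP B P3)) := ⟨_, rfl⟩
  have hz1 : zP B P1 ≤ z := by rw [hzd]; exact le_max_left _ _
  have hz2 : zP B P2 ≤ z := by rw [hzd]; exact (le_max_left _ _).trans (le_max_right _ _)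
  have hz3 : zP B P3 ≤ z := by rw [hzd]; exact (le_max_right _ _).trans (le_max_right _ _)
  have hzlo : L ^ 5 ≤ (z : ℝ) := z11.trans (by exact_mod_cast hz1)
  have hzhi : (z : ℝ) ≤ L ^ (B + 1) := by
    rw [hzd]
    push_cast
    exact max_le z12 (max_le z22 z32)
  -- the coefficients
  obtain ⟨a1, ha1⟩ : ∃ a1 : ℕ, a1 = c1.natAbs := ⟨_, rfl⟩
  obtain ⟨a2, ha2⟩ : ∃ a2 : ℕ, a2 = c2.natAbs := ⟨_, rfl⟩
  obtain ⟨a3, ha3⟩ : ∃ a3 : ℕ, a3 = c3.natAbs := ⟨_, rfl⟩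
  have ha11 : 1 ≤ a1 := by rw [ha1]; exact Int.natAbs_pos.2 hp.n1
  have ha21 : 1 ≤ a2 := by rw [ha2]; exact Int.natAbs_pos.2 hp.n2
  have ha31 : 1 ≤ a3 := by rw [ha3]; exact Int.natAbs_pos.2 hp.n3
  have hc1' : c1 = (a1 : ℤ) := by rw [ha1]; omega
  have hc2' : c2 = (a2 : ℤ) := by rw [ha2]; omega
  have hc3' : c3 = -(a3 : ℤ) := by rw [ha3]; omega
  obtain ⟨μ, hμ⟩ : ∃ μ : ℝ, μ = (N : ℝ) ^ 2 / (a1 * a2 * a3) := ⟨_, rfl⟩
  have ha10 : (0 : ℝ) < a1 := by exact_mod_cast ha11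
  have ha20 : (0 : ℝ) < a2 := by exact_mod_cast ha21
  have ha30 : (0 : ℝ) < a3 := by exact_mod_cast ha31
  have hμ0 : 0 < μ := by rw [hμ]; positivity
  obtain ⟨ε, hε⟩ : ∃ ε : ℝ, ε = μ / L ^ (6 * T + 10) := ⟨_, rfl⟩
  have hε0 : 0 < ε := by rw [hε]; positivity
  have hε1 : (N : ℝ) ^ 2 / (c1.natAbs * c2.natAbs * c3.natAbs) / Real.log N ^ (6 * T + 10) = ε := by
    rw [hε, hμ, ← hLd, ← ha1, ← ha2, ← ha3]
  have hε2 : (N : ℝ) ^ 2 / (c2.natAbs * c1.natAbs * c3.natAbs) / Real.log N ^ (6 * T + 10) = ε := by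
    rw [← hε1, mul_comm (c2.natAbs : ℝ)]
  have hε3 : (N : ℝ) ^ 2 / (c3.natAbs * c1.natAbs * c2.natAbs) / Real.log N ^ (6 * T + 10) = ε := by
    rw [← hε1]
    congr 2
    ring
  -- the functions
  have f1 := lam_bound b15
  have f2 := lam_bound b25
  have f3 := lam_bound b35
  have k1 := lamQ_bound b15 hL0.le
  have k2 := lamQ_bound b25 hL0.le
  rw [hLd] at f1 f2 f3 k1 k2
  have r1 := h2 N (by omega) hp7
  rw [hε1] at r1
  have r2 := rep3 (c1 := c1) (c2 := c2) (c3 := c3) (d := d) (P1 := P1) (P2 := P2) (P3 := P3)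
    (fun n => (ArithmeticFunction.vonMangoldt n : ℝ)) (fun n => (ArithmeticFunction.vonMangoldt n : ℝ))
    (fun n => (ArithmeticFunction.vonMangoldt n : ℝ)) (fun n => lamQ n) (fun n => lamQ n)
    (fun n => lamQ n) (ε := ε)
    (by rw [← hε1]; exact h3 N (by omega) hp f2 f3)
    (by rw [← hε2]; exact h3 N (by omega) hp.swap k1 f3)
    (by rw [← hε3]; exact h3 N (by omega) hp.rot.rot k1 k2)
  have hlow := h4 N (by omega) z (by rw [← hLd]; exact hzlo) (by rw [← hLd]; exact hzhi) a1 a2 a3 ha11 ha21 ha31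
    (by rw [ha1, ha2]; exact hp.q12) (by
      refine le_trans ?_ hp.q13
      rw [← ha3]
      exact_mod_cast Nat.le_mul_of_pos_left _ (by rw [← ha1]; exact ha11)) (by rw [ha1, ha2]; exact hp.g12) d hp.hd
    (by
      rw [hc1', hc2', hc3', neg_neg] at hadm
      exact hadm) P1 P2 P3 (by rw [ha1]; exact hp.v1) (by rw [ha2]; exact hp.v2) (by rw [ha3]; exact hp.v3)
    (fun n => lamz (zP B P1) n) (fun n => lamz (zP B P2) n) (fun n => lamz (zP B P3) n)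
    (fun n => lamz_nonneg' _ n) (fun n => lamz_nonneg' _ n) (fun n => lamz_nonneg' _ n)
    (fun n h => lamz_rough hz1 h) (fun n h => lamz_rough hz2 h) (fun n h => lamz_rough hz3 h)
  rw [← hc1', ← hc2', ← hc3', ← hLd] at hlow
  have hlow2 : (N : ℝ) ^ 2 / (a1 * a2 * a3 * L ^ (6 * T + 9)) = L * ε := by
    rw [hε, hμ, show 6 * T + 10 = (6 * T + 9) + 1 by ring, pow_succ L (6 * T + 9)]
    field_simp
  rw [hlow2] at hlow
  have hpos : 0 < S3 c1 c2 c3 d P1 P2 P3 (fun n => lamQ n) (fun n => lamQ n) (fun n => lamQ n) := by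
    have e1 := (abs_le.1 r1).1
    have e2 := (abs_le.1 r2).2
    have e3 : 100 * ε ≤ L * ε := mul_le_mul_of_nonneg_right hL100 hε0.le
    linarith
  by_contra hcon
  push Not at hcon
  have hzero : S3 c1 c2 c3 d P1 P2 P3 (fun n => lamQ n) (fun n => lamQ n) (fun n => lamQ n) = 0 := by
    unfold S3
    apply sum_eq_zero
    intro x hx
    apply sum_eq_zero
    intro y hy
    apply sum_eq_zero
    intro w hw
    rw [mem_Icc] at hx hy hw
    split_ifs with heq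
    · by_cases px : x.Prime
      · by_cases py : y.Prime
        · by_cases pw : w.Prime
          · exact absurd hw.2 (not_le.2 (hcon x y w px py pw heq hx.2 hy.2))
          · change lamQ x * lamQ y * lamQ w = 0
            rw [lamQ_zero pw, mul_zero]
        · change lamQ x * lamQ y * lamQ w = 0
          rw [lamQ_zero py, mul_zero, zero_mul]
      · change lamQ x * lamQ y * lamQ w = 0
        rw [lamQ_zero px, zero_mul, zero_mul]
    · rfl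
  rw [hzero] at hpos
  exact lt_irrefl _ hpos

end Pool.Agent.Y883.GJ
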